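import Pool.Agent.helper32.EX.Defs

/-!
# Project ex (MP_561ff4_al): root systems, bracket, basic API
-/

set_option autoImplicit false
set_option linter.unusedVariables false
set_option linter.unusedSectionVars false

namespace Pool.Agent.EX

noncomputable section

section Lattice

variable {n : ℕ}

/-- Connected simply laced Dynkin diagrams of finite type (`C` is the Cartan matrix). -/
structure Dyn (C : Matrix (Fin n) (Fin n) ℤ) : Prop where
  symm : ∀ i j, C i j = C j i
  diag : ∀ i, C i i = 2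
  off : ∀ i j, i ≠ j → C i j = 0 ∨ C i j = -1
  pos : ∀ v : Fin n → ℤ, v ≠ 0 → 0 < Q C v v
  fin : Finite (Rt C)
  conn : ∀ s : Set (Fin n), s.Nonempty → (∀ i ∈ s, ∀ j, C i j ≠ 0 → j ∈ s) → s = Set.univ
  ne : 0 < n

variable {C : Matrix (Fin n) (Fin n) ℤ} [hC : Fact (Dyn C)]

instance : Finite (Rt C) := hC.out.fin

instance : Fintype (Rt C) := Fintype.ofFinite _

theorem Q_comm (v w : Fin n → ℤ) : Q C v w = Q C w v := by
  simp only [Q]
  rw [Finset.sum_comm]
  refine Finset.sum_congr rfl fun i _ => Finset.sum_congr rfl fun j _ => ?_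
  rw [hC.out.symm j i]; ring

theorem Q_single (v : Fin n → ℤ) (i : Fin n) : Q C v (Pi.single i 1) = ∑ j, v j * C j i := by
  simp only [Q]
  refine Finset.sum_congr rfl fun j _ => ?_
  rw [Finset.sum_eq_single i]
  · simp
  · intro k _ hk; simp [hk]
  · intro h; exact absurd (Finset.mem_univ i) h

theorem Q_single_single (i j : Fin n) : Q C (Pi.single i 1) (Pi.single j 1) = C i j := by
  rw [Q_single, Finset.sum_eq_single i]
  · simp
  · intro k _ hk; simp [hk]
  · intro h; exact absurd (Finset.mem_univ i) h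

/-- The simple root `α_i`. -/
def sm (C : Matrix (Fin n) (Fin n) ℤ) [hC : Fact (Dyn C)] (i : Fin n) : Rt C :=
  ⟨Pi.single i 1, by rw [Q_single_single]; exact hC.out.diag i⟩

theorem Q_expand (v w : Fin n → ℤ) : Q C v w = ∑ i, w i * Q C v (sm C i).1 := by
  simp only [sm, Q_single, Finset.mul_sum]
  rw [Finset.sum_comm]
  simp only [Q]
  refine Finset.sum_congr rfl fun i _ => Finset.sum_congr rfl fun j _ => ?_
  ring

theorem ne_zero_of_rt (α : Rt C) : α.1 ≠ 0 := by
  intro h
  have h1 := α.2
  rw [h] at h1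
  simp [Q] at h1

theorem neg_ne (α : Rt C) : -α ≠ α := by
  intro h
  have h1 : -α.1 = α.1 := congrArg Subtype.val h
  have h2 : α.1 = 0 := by
    funext i
    have := congrFun h1 i
    simp only [Pi.neg_apply] at this
    show α.1 i = 0
    omega
  exact ne_zero_of_rt α h2

/-- The reflection `β ↦ β - (α,β) α`. -/
def rf (α β : Rt C) : Rt C := ⟨β.1 - Q C α.1 β.1 • α.1, by
  rw [Q_sub_left, Q_sub_right, Q_sub_right, Q_smul_left, Q_smul_right, Q_smul_left, Q_smul_right, α.2, β.2,
    Q_comm β.1 α.1]; ring⟩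

theorem rf_rf (α β : Rt C) : rf α (rf α β) = β := by
  apply Subtype.ext
  show β.1 - Q C α.1 β.1 • α.1 - Q C α.1 (β.1 - Q C α.1 β.1 • α.1) • α.1 = β.1
  rw [Q_sub_right, Q_smul_right, α.2]
  funext i
  simp only [Pi.sub_apply, Pi.smul_apply, smul_eq_mul]
  ring

/-- The reflection as a permutation of the roots. -/
def rfe (α : Rt C) : Equiv.Perm (Rt C) := ⟨rf α, rf α, rf_rf α, rf_rf α⟩

@[simp] theorem rfe_apply (α β : Rt C) : rfe α β = rf α β := rfl

/-- The Weyl group (generated by the simple reflections). -/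
def W (C : Matrix (Fin n) (Fin n) ℤ) [hC : Fact (Dyn C)] : Subgroup (Equiv.Perm (Rt C)) :=
  Subgroup.closure (Set.range fun i => rfe (sm C i))

/-- Positive roots. -/
def Pos (α : Rt C) : Prop := ∀ i, 0 ≤ α.1 i

/-- The height. -/
def ht (α : Rt C) : ℤ := ∑ i, α.1 i

/-- Dominant roots. -/
def Dom (α : Rt C) : Prop := ∀ i, 0 ≤ Q C α.1 (sm C i).1

end Lattice

section Algebra

variable {n : ℕ} {C : Matrix (Fin n) (Fin n) ℤ} {R : Type} [CommRing R]

theorem bl_add_left (u v w : Fin n → R) : bl C (u + v) w = bl C u w + bl C v w := by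
  simp only [bl, Pi.add_apply, add_mul, Finset.sum_add_distrib]

theorem bl_add_right (u v w : Fin n → R) : bl C u (v + w) = bl C u v + bl C u w := by
  simp only [bl, Pi.add_apply, mul_add, Finset.sum_add_distrib]

theorem bl_smul_left (a : R) (v w : Fin n → R) : bl C (a • v) w = a * bl C v w := by
  simp only [bl, Pi.smul_apply, smul_eq_mul, Finset.mul_sum, mul_assoc]

theorem bl_smul_right (a : R) (v w : Fin n → R) : bl C v (a • w) = a * bl C v w := by
  simp only [bl, Pi.smul_apply, smul_eq_mul, Finset.mul_sum]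
  refine Finset.sum_congr rfl fun i _ => Finset.sum_congr rfl fun j _ => ?_
  ring

@[simp] theorem bl_zero_left (v : Fin n → R) : bl C 0 v = 0 := by simp [bl]

@[simp] theorem bl_zero_right (v : Fin n → R) : bl C v 0 = 0 := by simp [bl]

theorem bl_neg_left (v w : Fin n → R) : bl C (-v) w = -bl C v w := by
  simp only [bl, Pi.neg_apply, neg_mul, Finset.sum_neg_distrib]

theorem bl_neg_right (v w : Fin n → R) : bl C v (-w) = -bl C v w := by
  simp only [bl, Pi.neg_apply, mul_neg, Finset.sum_neg_distrib]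

theorem bl_sub_left (u v w : Fin n → R) : bl C (u - v) w = bl C u w - bl C v w := by
  rw [sub_eq_add_neg, bl_add_left, bl_neg_left, ← sub_eq_add_neg]

theorem bl_rt (α β : Rt C) : bl C (rt R α) (rt R β) = (Q C α.1 β.1 : R) := by
  simp only [bl, rt, Q, Int.cast_sum, Int.cast_mul]

@[simp] theorem rt_neg (α : Rt C) : rt R (-α) = -rt R α := by
  funext i; simp [rt]

@[simp] theorem ev_zero (α : Rt C) : ev C α (0 : R) = 0 := by simp [ev]

theorem ev_add (α : Rt C) (s t : R) : ev C α (s + t) = ev C α s + ev C α t := by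
  simp [ev, Pi.single_add, Prod.ext_iff]

theorem smul_ev (α : Rt C) (s t : R) : s • ev C α t = ev C α (s * t) := by
  ext i
  · simp [ev]
  · simp only [ev, Prod.smul_snd, Pi.smul_apply, smul_eq_mul, Pi.single_apply]
    split_ifs <;> simp

theorem ev_eq (α : Rt C) (t : R) : ev C α t = t • ev C α 1 := by rw [smul_ev, mul_one]

@[simp] theorem ev_fst (α : Rt C) (t : R) : (ev C α t).1 = 0 := rfl

@[simp] theorem ev_snd_self (α : Rt C) (t : R) : (ev C α t).2 α = t := by simp [ev]

theorem ev_snd (α β : Rt C) (t : R) : (ev C α t).2 β = if β = α then t else 0 := by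
  simp only [ev, Pi.single_apply]

theorem ext_rt (φ : Rt C → R) (α : Rt C) : ext φ α.1 = φ α := by
  simp only [ext, α.2, dite_true]

theorem ext_add (φ ψ : Rt C → R) (w : Fin n → ℤ) : ext (φ + ψ) w = ext φ w + ext ψ w := by
  simp only [ext]; split_ifs <;> simp

theorem ext_smul (a : R) (φ : Rt C → R) (w : Fin n → ℤ) : ext (a • φ) w = a * ext φ w := by
  simp only [ext]; split_ifs <;> simp

@[simp] theorem ext_zero (w : Fin n → ℤ) : ext (0 : Rt C → R) w = 0 := by
  simp only [ext]; split_ifs <;> simp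

theorem ext_ev (α : Rt C) (t : R) (w : Fin n → ℤ) : ext (ev C α t).2 w = if w = α.1 then t else 0 := by
  by_cases h : Q C w w = 2
  · simp only [ext, h, dite_true, ev_snd, Subtype.ext_iff]
  · simp only [ext, h, dite_false]
    split_ifs with h1
    · exact absurd (h1 ▸ α.2) h
    · rfl

theorem xf_add (α : Rt C) (t : R) (u v : LV C R) : xf α t (u + v) = xf α t u + xf α t v := by
  ext i
  · simp only [xf, Prod.fst_add, Prod.snd_add, Pi.add_apply, Pi.sub_apply, Pi.smul_apply, smul_eq_mul]; ring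
  · simp only [xf, Prod.fst_add, Prod.snd_add, Pi.add_apply, ext_add, bl_add_left]
    split_ifs <;> ring

theorem xf_smul (α : Rt C) (t a : R) (v : LV C R) : xf α t (a • v) = a • xf α t v := by
  ext i
  · simp only [xf, Prod.smul_fst, Prod.smul_snd, Pi.sub_apply, Pi.smul_apply, smul_eq_mul]; ring
  · simp only [xf, Prod.smul_fst, Prod.smul_snd, Pi.smul_apply, smul_eq_mul, ext_smul, bl_smul_left]
    split_ifs <;> ring

variable [hC : Fact (Dyn C)]

theorem bl_comm (u v : Fin n → R) : bl C u v = bl C v u := by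
  simp only [bl]
  rw [Finset.sum_comm]
  refine Finset.sum_congr rfl fun i _ => Finset.sum_congr rfl fun j _ => ?_
  rw [hC.out.symm j i]; ring

/-- The Lie bracket: `[e_α,e_β] = ε(α,β) e_{α+β}`, `[e_α,e_{-α}] = -α`, `[h,e_α] = (h,α) e_α`. -/
def br (u v : LV C R) : LV C R :=
  (-∑ α : Rt C, (u.2 α * v.2 (-α)) • rt R α,
   fun γ => bl C u.1 (rt R γ) * v.2 γ - bl C v.1 (rt R γ) * u.2 γ +
     ∑ α : Rt C, (eps C α.1 (γ.1 - α.1) : R) * u.2 α * ext v.2 (γ.1 - α.1))

/-- The invariant form: `f(e_α,e_{-α}) = 1`, `f(h,k) = -(h,k)`. -/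
def fo (u v : LV C R) : R := -bl C u.1 v.1 + ∑ α : Rt C, u.2 α * v.2 (-α)

/-- `ex w v = v + [w,v] + f(w,v) w`. -/
def ex (w v : LV C R) : LV C R := v + br w v + fo w v • w

theorem br_add_left (u v w : LV C R) : br (u + v) w = br u w + br v w := by
  ext γ
  · simp only [br, Prod.fst_add, Prod.snd_add, Pi.add_apply, add_mul, add_smul, Finset.sum_add_distrib, neg_add]
  · simp only [br, Prod.fst_add, Prod.snd_add, Pi.add_apply, bl_add_left, mul_add, add_mul, Finset.sum_add_distrib]
    ring

theorem br_add_right (u v w : LV C R) : br u (v + w) = br u v + br u w := by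
  ext γ
  · simp only [br, Prod.fst_add, Prod.snd_add, Pi.add_apply, mul_add, add_smul, Finset.sum_add_distrib, neg_add]
  · simp only [br, Prod.fst_add, Prod.snd_add, Pi.add_apply, bl_add_left, mul_add, add_mul, ext_add,
      Finset.sum_add_distrib]
    ring

theorem br_smul_left (a : R) (u v : LV C R) : br (a • u) v = a • br u v := by
  ext γ
  · simp only [br, Prod.smul_fst, Prod.smul_snd, Pi.smul_apply, smul_eq_mul, Pi.neg_apply, Finset.sum_apply, mul_neg,
      Finset.mul_sum]
    congr 1
    refine Finset.sum_congr rfl fun α _ => by ring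
  · simp only [br, Prod.smul_fst, Prod.smul_snd, Pi.smul_apply, smul_eq_mul, bl_smul_left, mul_add, mul_sub,
      Finset.mul_sum]
    refine congrArg₂ _ (by ring) (Finset.sum_congr rfl fun α _ => by ring)

theorem br_smul_right (a : R) (u v : LV C R) : br u (a • v) = a • br u v := by
  ext γ
  · simp only [br, Prod.smul_fst, Prod.smul_snd, Pi.smul_apply, smul_eq_mul, Pi.neg_apply, Finset.sum_apply, mul_neg,
      Finset.mul_sum]
    congr 1
    refine Finset.sum_congr rfl fun α _ => by ring
  · simp only [br, Prod.smul_fst, Prod.smul_snd, Pi.smul_apply, smul_eq_mul, bl_smul_left, mul_add, mul_sub,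
      Finset.mul_sum, ext_smul]
    refine congrArg₂ _ (by ring) (Finset.sum_congr rfl fun α _ => by ring)

@[simp] theorem br_zero_left (v : LV C R) : br 0 v = 0 := by
  have := br_smul_left (C := C) (0 : R) 0 v
  simpa using this

@[simp] theorem br_zero_right (v : LV C R) : br v 0 = 0 := by
  have := br_smul_right (C := C) (0 : R) v 0
  simpa using this

theorem br_neg_left (u v : LV C R) : br (-u) v = -br u v := by
  have := br_smul_left (C := C) (-1 : R) u v
  simpa using this

theorem br_neg_right (u v : LV C R) : br u (-v) = -br u v := by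
  have := br_smul_right (C := C) (-1 : R) u v
  simpa using this

theorem br_sub_right (u v w : LV C R) : br u (v - w) = br u v - br u w := by
  rw [sub_eq_add_neg, br_add_right, br_neg_right, ← sub_eq_add_neg]

theorem br_sub_left (u v w : LV C R) : br (u - v) w = br u w - br v w := by
  rw [sub_eq_add_neg, br_add_left, br_neg_left, ← sub_eq_add_neg]

theorem fo_add_left (u v w : LV C R) : fo (u + v) w = fo u w + fo v w := by
  simp only [fo, Prod.fst_add, Prod.snd_add, Pi.add_apply, bl_add_left, add_mul, Finset.sum_add_distrib]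
  ring

theorem fo_add_right (u v w : LV C R) : fo u (v + w) = fo u v + fo u w := by
  simp only [fo, Prod.fst_add, Prod.snd_add, Pi.add_apply, bl_add_right, mul_add, Finset.sum_add_distrib]
  ring

theorem fo_smul_left (a : R) (u v : LV C R) : fo (a • u) v = a * fo u v := by
  simp only [fo, Prod.smul_fst, Prod.smul_snd, Pi.smul_apply, smul_eq_mul, bl_smul_left, mul_add, Finset.mul_sum]
  refine congrArg₂ _ (by ring) (Finset.sum_congr rfl fun α _ => by ring)

theorem fo_smul_right (a : R) (u v : LV C R) : fo u (a • v) = a * fo u v := by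
  simp only [fo, Prod.smul_fst, Prod.smul_snd, Pi.smul_apply, smul_eq_mul, bl_smul_right, mul_add, Finset.mul_sum]
  refine congrArg₂ _ (by ring) (Finset.sum_congr rfl fun α _ => by ring)

@[simp] theorem fo_zero_left (v : LV C R) : fo 0 v = 0 := by
  have := fo_smul_left (C := C) (0 : R) 0 v
  simpa using this

@[simp] theorem fo_zero_right (v : LV C R) : fo v 0 = 0 := by
  have := fo_smul_right (C := C) (0 : R) v 0
  simpa using this

theorem fo_neg_left (u v : LV C R) : fo (-u) v = -fo u v := by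
  have := fo_smul_left (C := C) (-1 : R) u v
  simpa using this

theorem fo_neg_right (u v : LV C R) : fo u (-v) = -fo u v := by
  have := fo_smul_right (C := C) (-1 : R) u v
  simpa using this

/-- `α ↦ -α` on the roots. -/
def negE (C : Matrix (Fin n) (Fin n) ℤ) : Rt C ≃ Rt C := ⟨fun α => -α, fun α => -α, rt_neg_neg C, rt_neg_neg C⟩

theorem fo_comm (u v : LV C R) : fo u v = fo v u := by
  simp only [fo, bl_comm u.1 v.1]
  congr 1
  refine Fintype.sum_equiv (negE C) _ _ fun α => ?_
  simp only [negE, Equiv.coe_fn_mk, rt_neg_neg]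
  ring

/-- Induction on vectors. -/
theorem LV_ind {P : LV C R → Prop} (h0 : P 0) (hadd : ∀ u v, P u → P v → P (u + v))
    (hh : ∀ (i : Fin n) (t : R), P (Pi.single i t, 0)) (he : ∀ (α : Rt C) (t : R), P (ev C α t)) (v : LV C R) : P v := by
  have h1 : ∀ s : Finset (Fin n), P (∑ i ∈ s, ((Pi.single i (v.1 i), 0) : LV C R)) := by
    intro s
    induction s using Finset.induction_on with
    | empty => simpa using h0
    | insert a s ha ih => rw [Finset.sum_insert ha]; exact hadd _ _ (hh _ _) ih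
  have h2 : ∀ s : Finset (Rt C), P (∑ α ∈ s, ev C α (v.2 α)) := by
    intro s
    induction s using Finset.induction_on with
    | empty => simpa using h0
    | insert a s ha ih => rw [Finset.sum_insert ha]; exact hadd _ _ (he _ _) ih
  have h3 := hadd _ _ (h1 Finset.univ) (h2 Finset.univ)
  have h4 : (∑ i, ((Pi.single i (v.1 i), 0) : LV C R)) + ∑ α, ev C α (v.2 α) = v := by
    ext i
    · simp [ev, Prod.fst_sum, Finset.sum_apply, Pi.single_apply]
    · simp [ev, Prod.snd_sum, Finset.sum_apply, Pi.single_apply]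
  rwa [h4] at h3

theorem Q_add_self (α β : Rt C) : Q C (α.1 + β.1) (α.1 + β.1) = 4 + 2 * Q C α.1 β.1 := by
  rw [Q_add_left, Q_add_right, Q_add_right, α.2, β.2, Q_comm β.1 α.1]; ring

theorem Q_sub_self (α β : Rt C) : Q C (α.1 - β.1) (α.1 - β.1) = 4 - 2 * Q C α.1 β.1 := by
  rw [Q_sub_left, Q_sub_right, Q_sub_right, α.2, β.2, Q_comm β.1 α.1]; ring

theorem bd (α β : Rt C) : -2 ≤ Q C α.1 β.1 ∧ Q C α.1 β.1 ≤ 2 := by
  constructor
  · by_cases h : α.1 + β.1 = 0
    · have h1 : β.1 = -α.1 := eq_neg_of_add_eq_zero_right h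
      rw [h1, Q_neg_right, α.2]
    · have := hC.out.pos _ h
      rw [Q_add_self] at this; omega
  · by_cases h : α.1 - β.1 = 0
    · have h1 : β.1 = α.1 := (sub_eq_zero.mp h).symm
      rw [h1, α.2]
    · have := hC.out.pos _ h
      rw [Q_sub_self] at this; omega

theorem Q_eq_two {α β : Rt C} (h : Q C α.1 β.1 = 2) : β = α := by
  by_contra hne
  have h1 : α.1 - β.1 ≠ 0 := fun h0 => hne (Subtype.ext (sub_eq_zero.mp h0).symm)
  have := hC.out.pos _ h1
  rw [Q_sub_self] at this; omega

theorem Q_eq_neg_two {α β : Rt C} (h : Q C α.1 β.1 = -2) : β = -α := by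
  by_contra hne
  have h1 : α.1 + β.1 ≠ 0 := fun h0 => hne (Subtype.ext (eq_neg_of_add_eq_zero_right h0))
  have := hC.out.pos _ h1
  rw [Q_add_self] at this; omega

theorem Q_neg_self (α : Rt C) : Q C α.1 (-α).1 = -2 := by
  rw [neg_val, Q_neg_right, α.2]

theorem ee_self (v : Fin n → ℤ) : 2 * ee C v v = Q C v v := by
  have h1 : ee C v v = ∑ i, ∑ j, v i * (if i = j then 1 else if j < i then C i j else 0) * v j := by
    simp only [ee]
    rw [Finset.sum_comm]
    refine Finset.sum_congr rfl fun i _ => Finset.sum_congr rfl fun j _ => ?_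
    by_cases h : i = j
    · simp [h]
    · have h' : ¬ j = i := fun h1 => h h1.symm
      simp only [h, h', if_false]
      rw [hC.out.symm j i]
      split_ifs <;> ring
  have h2 : 2 * ee C v v = ee C v v + ee C v v := by ring
  rw [h2]
  nth_rewrite 2 [h1]
  simp only [ee, Q]
  rw [← Finset.sum_add_distrib]
  refine Finset.sum_congr rfl fun i _ => ?_
  rw [← Finset.sum_add_distrib]
  refine Finset.sum_congr rfl fun j _ => ?_
  by_cases h : i = j
  · subst h; simp only [if_true, hC.out.diag]; ring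
  · simp only [h, if_false]
    rcases lt_or_gt_of_ne h with h' | h'
    · simp only [h', not_lt_of_gt h', if_true, if_false]; ring
    · simp only [h', not_lt_of_gt h', if_true, if_false]; ring

theorem ee_symm (v w : Fin n → ℤ) : ee C v w + ee C w v = Q C v w := by
  have h := ee_self (C := C) (v + w)
  rw [ee_add_left, ee_add_right, ee_add_right, Q_add_left, Q_add_right, Q_add_right, Q_comm w v] at h
  have h1 := ee_self (C := C) v
  have h2 := ee_self (C := C) w
  linarith

theorem eps_self (α : Rt C) : eps C α.1 α.1 = -1 := by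
  have h := ee_self (C := C) α.1
  rw [α.2] at h
  have h1 : ee C α.1 α.1 = 1 := by omega
  rw [eps, h1, Int.negOnePow_one, Units.val_neg, Units.val_one]

theorem eps_mul_symm (v w : Fin n → ℤ) : eps C v w * eps C w v = ((Int.negOnePow (Q C v w) : ℤˣ) : ℤ) := by
  rw [eps, eps, ← Units.val_mul, ← Int.negOnePow_add, ee_symm]

theorem eps_symm_even {v w : Fin n → ℤ} (h : Q C v w = 0 ∨ Q C v w = 2 ∨ Q C v w = -2) : eps C v w = eps C w v := by
  have h1 := eps_mul_symm (C := C) v w
  have h2 : Int.negOnePow (Q C v w) = 1 := Int.negOnePow_even _ (by rcases h with h | h | h <;> rw [h] <;> decide)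
  rw [h2, Units.val_one] at h1
  rcases eps_or C v w with h3 | h3 <;> rcases eps_or C w v with h4 | h4 <;> rw [h3, h4] at h1 ⊢ <;> simp at h1

theorem eps_symm_odd {v w : Fin n → ℤ} (h : Q C v w = 1 ∨ Q C v w = -1) : eps C w v = -eps C v w := by
  have h1 := eps_mul_symm (C := C) v w
  have h2 : Int.negOnePow (Q C v w) = -1 := Int.negOnePow_odd _ (by rcases h with h | h <;> rw [h] <;> decide)
  rw [h2, Units.val_neg, Units.val_one] at h1
  rcases eps_or C v w with h3 | h3 <;> rcases eps_or C w v with h4 | h4 <;> rw [h3, h4] at h1 ⊢ <;> simp at h1 ⊢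

/-! ### Values on basis vectors -/

theorem br_ev_ev (α β : Rt C) (s t : R) :
    br (ev C α s) (ev C β t) = (-((if β = -α then s * t else 0) • rt R α),
      fun γ => if γ.1 = α.1 + β.1 then (eps C α.1 β.1 : R) * s * t else 0) := by
  ext γ
  · simp only [br]
    rw [Finset.sum_eq_single α]
    · simp only [ev_snd_self, ev_snd, Prod.fst]
      by_cases h : β = -α
      · simp [h]
      · have h' : ¬ -α = β := fun h1 => h h1.symm
        simp [h, h']
    · intro b _ hb; simp [ev_snd, hb]
    · intro h; exact absurd (Finset.mem_univ α) h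
  · simp only [br, ev_fst, bl_zero_left, zero_mul, sub_zero, zero_add]
    rw [Finset.sum_eq_single α]
    · simp only [ev_snd_self, ext_ev]
      by_cases h : γ.1 = α.1 + β.1
      · have h1 : γ.1 - α.1 = β.1 := by rw [h]; simp
        rw [h1, if_pos rfl, if_pos h]
      · have h1 : ¬ γ.1 - α.1 = β.1 := fun h1 => h (by rw [← h1]; simp)
        simp only [h1, if_false, h, mul_zero]
    · intro b _ hb; simp [ev_snd, hb]
    · intro h; exact absurd (Finset.mem_univ α) h

theorem br_ev_add {α β γ : Rt C} (h : γ.1 = α.1 + β.1) (s t : R) :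
    br (ev C α s) (ev C β t) = ev C γ ((eps C α.1 β.1 : R) * s * t) := by
  rw [br_ev_ev]
  have h1 : β ≠ -α := by
    intro h1
    rw [h1, neg_val, add_neg_cancel] at h
    exact ne_zero_of_rt γ h
  ext δ
  · simp [h1]
  · simp only [ev_snd]
    by_cases h2 : δ = γ
    · simp [h2, h]
    · have h3 : ¬ δ.1 = α.1 + β.1 := fun h3 => h2 (Subtype.ext (h3.trans h.symm))
      simp [h2, h3]

theorem br_ev_neg (α : Rt C) (s t : R) : br (ev C α s) (ev C (-α) t) = (-((s * t) • rt R α), 0) := by
  rw [br_ev_ev]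
  ext δ
  · simp
  · have h3 : ¬ δ.1 = α.1 + (-α).1 := fun h3 => ne_zero_of_rt δ (by rw [h3, neg_val, add_neg_cancel])
    simp only [h3, if_false, Pi.zero_apply]

theorem br_ev_zero {α β : Rt C} (h : 0 ≤ Q C α.1 β.1) (s t : R) : br (ev C α s) (ev C β t) = 0 := by
  rw [br_ev_ev]
  have h1 : β ≠ -α := by
    intro h1
    rw [h1, Q_neg_self] at h
    omega
  ext δ
  · simp [h1]
  · have h3 : ¬ δ.1 = α.1 + β.1 := fun h3 => by
      have h4 := Q_add_self (C := C) α β
      rw [← h3, δ.2] at h4
      omega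
    simp [h3]

theorem br_h_ev (h : Fin n → R) (α : Rt C) (t : R) : br ((h, 0) : LV C R) (ev C α t) = ev C α (bl C h (rt R α) * t) := by
  ext δ
  · simp [br, ev]
  · simp only [br, ev_fst, bl_zero_left, zero_mul, sub_zero, Pi.zero_apply, mul_zero, Finset.sum_const_zero, add_zero,
      ev_snd]
    by_cases h1 : δ = α
    · simp [h1]
    · simp [h1]

theorem br_ev_h (h : Fin n → R) (α : Rt C) (t : R) :
    br (ev C α t) ((h, 0) : LV C R) = ev C α (-(bl C h (rt R α) * t)) := by
  ext δ
  · simp [br, ev]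
  · simp only [br, ev_fst, bl_zero_left, zero_mul, zero_sub, Pi.zero_apply, ext_zero, mul_zero, Finset.sum_const_zero,
      add_zero, ev_snd]
    by_cases h1 : δ = α
    · simp [h1]
    · simp [h1]

theorem br_h_h (h k : Fin n → R) : br ((h, 0) : LV C R) (k, 0) = 0 := by
  ext δ <;> simp [br]

theorem fo_ev (α : Rt C) (t : R) (v : LV C R) : fo (ev C α t) v = t * v.2 (-α) := by
  simp only [fo, ev_fst, bl_zero_left, neg_zero, zero_add]
  rw [Finset.sum_eq_single α]
  · simp
  · intro b _ hb; simp [ev_snd, hb]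
  · intro h; exact absurd (Finset.mem_univ α) h

theorem fo_h (h : Fin n → R) (v : LV C R) : fo ((h, 0) : LV C R) v = -bl C h v.1 := by
  simp [fo]

/-! ### The root elements -/

theorem ext_xf (α : Rt C) (t : R) (v : LV C R) (γ : Rt C) : ext (xf α t v).2 (γ.1 - α.1) = ext v.2 (γ.1 - α.1) := by
  by_cases h : Q C (γ.1 - α.1) (γ.1 - α.1) = 2
  · simp only [ext, h, dite_true, xf]
    have h1 : Q C γ.1 α.1 = 1 := by
      have := Q_sub_self (C := C) γ α
      omega
    have h5 : Q C (γ.1 - α.1) α.1 = -1 := by rw [Q_sub_left, h1, α.2]; norm_num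
    have h2 : ¬ Q C (γ.1 - α.1 - α.1) (γ.1 - α.1 - α.1) = 2 := by
      have h6 := Q_sub_self (C := C) ⟨γ.1 - α.1, h⟩ α
      rw [h6, h5]
      norm_num
    have h3 : ¬ (⟨γ.1 - α.1, h⟩ : Rt C) = α := by
      intro h3
      have h4 : γ.1 - α.1 = α.1 := congrArg Subtype.val h3
      rw [h4, α.2] at h5
      omega
    rw [dif_neg h2, if_neg h3]
    ring
  · simp only [ext, h, dite_false]

theorem xf_neg_coord (α : Rt C) (t : R) (v : LV C R) : (xf α t v).2 (-α) = v.2 (-α) := by
  have h1 : ¬ Q C ((-α).1 - α.1) ((-α).1 - α.1) = 2 := by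
    rw [Q_sub_self, neg_val, Q_neg_left, α.2]; norm_num
  simp only [xf, ext, dif_neg h1, if_neg (neg_ne α), mul_zero, add_zero]

theorem xf_xf (α : Rt C) (s t : R) (v : LV C R) : xf α s (xf α t v) = xf α (s + t) v := by
  have e1 := xf_neg_coord (C := C) α t v
  have e2 := fun γ => ext_xf (C := C) α t v γ
  have e3 : (xf α t v).1 = v.1 - (t * v.2 (-α)) • rt R α := rfl
  have e4 : ∀ γ, (xf α t v).2 γ = v.2 γ + t * (eps C α.1 (γ.1 - α.1) : R) * ext v.2 (γ.1 - α.1) +
     (if γ = α then -(t * bl C v.1 (rt R α)) + t ^ 2 * v.2 (-α) else 0) := fun γ => rfl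
  ext γ
  · show ((xf α t v).1 - (s * (xf α t v).2 (-α)) • rt R α) γ = (v.1 - ((s + t) * v.2 (-α)) • rt R α) γ
    rw [e1, e3]
    simp only [Pi.sub_apply, Pi.smul_apply, smul_eq_mul]
    ring
  · show (xf α t v).2 γ + s * (eps C α.1 (γ.1 - α.1) : R) * ext (xf α t v).2 (γ.1 - α.1) +
     (if γ = α then -(s * bl C (xf α t v).1 (rt R α)) + s ^ 2 * (xf α t v).2 (-α) else 0) =
     v.2 γ + (s + t) * (eps C α.1 (γ.1 - α.1) : R) * ext v.2 (γ.1 - α.1) +
     (if γ = α then -((s + t) * bl C v.1 (rt R α)) + (s + t) ^ 2 * v.2 (-α) else 0)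
    rw [e1, e2, e3, e4, bl_sub_left, bl_smul_left, bl_rt, α.2]
    push_cast
    split_ifs <;> ring

theorem xf_zero (α : Rt C) (v : LV C R) : xf α 0 v = v := by
  ext γ
  · simp [xf]
  · simp [xf]

/-- `x_α(t)` as a linear automorphism. -/
def xl (α : Rt C) (t : R) : LV C R ≃ₗ[R] LV C R where
  toFun := xf α t
  map_add' := xf_add α t
  map_smul' := xf_smul α t
  invFun := xf α (-t)
  left_inv v := by rw [xf_xf, neg_add_cancel, xf_zero]
  right_inv v := by rw [xf_xf, add_neg_cancel, xf_zero]

theorem xl_apply (α : Rt C) (t : R) (v : LV C R) : xl α t v = xf α t v := rfl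

theorem xl_zero (α : Rt C) : xl α (0 : R) = 1 := LinearEquiv.ext fun v => xf_zero α v

theorem xl_add (α : Rt C) (s t : R) : xl α (s + t) = xl α s * xl α t := LinearEquiv.ext fun v => (xf_xf α s t v).symm

theorem xl_neg (α : Rt C) (t : R) : xl α (-t) = (xl α t)⁻¹ := by
  rw [eq_inv_iff_mul_eq_one, ← xl_add, neg_add_cancel, xl_zero]

theorem xf_ev_neg (α : Rt C) (t : R) : xf α t (ev C (-α) 1) = (-(t • rt R α), fun γ => if γ = -α then 1 else
    if γ = α then t ^ 2 else 0) := by
  ext γ
  · simp [xf]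
  · have h0 : ¬ γ.1 - α.1 = (-α).1 := by
      intro h
      have h1 : γ.1 = 0 := by
        have h2 : γ.1 = (-α).1 + α.1 := by rw [← h]; simp
        rw [h2, neg_val, neg_add_cancel]
      exact ne_zero_of_rt γ h1
    simp only [xf, ev_fst, bl_zero_left, mul_zero, neg_zero, zero_add, ev_snd_self, mul_one, ext_ev, if_neg h0, ev_snd,
      add_zero]
    by_cases h1 : γ = -α
    · have h2 : ¬ γ = α := fun h3 => neg_ne α (h1.symm.trans h3)
      simp [h1, neg_ne α]
    · simp [h1]

theorem rt_ne_zero (F : Type) [Field F] (α : Rt C) : rt F α ≠ 0 := by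
  intro h
  have h1 : ∀ i, ((α.1 i : ℤ) : F) = 0 := fun i => congrFun h i
  rcases Nat.eq_zero_or_pos (ringChar F) with h0 | h0
  · have h9 : CharP F 0 := ringChar.eq_iff.mp h0
    have : CharZero F := CharP.charP_to_charZero F
    exact ne_zero_of_rt α (funext fun i => Int.cast_injective ((h1 i).trans Int.cast_zero.symm))
  · have h2 : ∀ i, ∃ b : ℤ, α.1 i = (ringChar F : ℤ) * b := fun i => (CharP.intCast_eq_zero_iff F (ringChar F) _).mp (h1 i)
    choose b hb using h2
    have h3 : α.1 = (ringChar F : ℤ) • b := funext fun i => by simp [hb]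
    have h4 := α.2
    rw [h3, Q_smul_left, Q_smul_right] at h4
    have h5 : b ≠ 0 := by
      intro h5
      rw [h5] at h3
      exact ne_zero_of_rt α (by rw [h3]; simp)
    have h6 := hC.out.pos _ h5
    have h7 : (1 : ℤ) < ringChar F := by
      have h8 : ringChar F ≠ 1 := CharP.ringChar_ne_one
      omega
    nlinarith [mul_pos (show (0:ℤ) < ringChar F by omega) h6]

theorem xl_inj {F : Type} [Field F] (α : Rt C) {s t : F} (h : xl α s = xl α t) : s = t := by
  have h1 := congrArg (fun g : LV C F ≃ₗ[F] LV C F => (g (ev C (-α) 1)).1) h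
  simp only [xl_apply, xf_ev_neg, neg_inj] at h1
  have h2 : (s - t) • rt F α = 0 := by rw [sub_smul, h1, sub_self]
  rcases smul_eq_zero.mp h2 with h3 | h3
  · exact sub_eq_zero.mp h3
  · exact absurd h3 (rt_ne_zero F α)

theorem xl_mem {F : Type} [Field F] (α : Rt C) (t : F) : xl α t ∈ EG C F :=
  Subgroup.subset_closure ⟨α, t, fun _ => rfl⟩

theorem EG_eq (F : Type) [Field F] : EG C F = Subgroup.closure {g | ∃ (α : Rt C) (t : F), g = xl α t} := by
  apply congrArg
  ext g
  constructor
  · rintro ⟨α, t, h⟩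
    exact ⟨α, t, LinearEquiv.ext h⟩
  · rintro ⟨α, t, h⟩
    exact ⟨α, t, fun v => by rw [h]; rfl⟩

/-- `x_α(t)` as an element of the group. -/
def xg {F : Type} [Field F] (α : Rt C) (t : F) : EG C F := ⟨xl α t, xl_mem α t⟩

end Algebra

end

end Pool.Agent.EX
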