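import Mathlib

/-!
# Project ex (MP_561ff4_al): simply laced Chevalley groups. Definitions and basic API
-/

set_option autoImplicit false
set_option linter.unusedVariables false

namespace Pool.Agent.EX

noncomputable section

section Lattice

variable {n : ℕ}

/-- The bilinear form on `ℤⁿ` with Gram matrix `C`. -/
def Q (C : Matrix (Fin n) (Fin n) ℤ) (v w : Fin n → ℤ) : ℤ := ∑ i, ∑ j, v i * C i j * w j

/-- The roots: the vectors of norm `2` of the root lattice `ℤⁿ` (coordinates with respect to the simple roots). -/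
abbrev Rt (C : Matrix (Fin n) (Fin n) ℤ) : Type := {v : Fin n → ℤ // Q C v v = 2}

/-- The exponent of the cocycle: `∑ v_i w_i + ∑_{i<j} v_i C_ij w_j`. -/
def ee (C : Matrix (Fin n) (Fin n) ℤ) (v w : Fin n → ℤ) : ℤ :=
  ∑ i, ∑ j, v i * (if i = j then 1 else if i < j then C i j else 0) * w j

/-- The cocycle `ε(v, w) = ±1`. -/
def eps (C : Matrix (Fin n) (Fin n) ℤ) (v w : Fin n → ℤ) : ℤ := ((Int.negOnePow (ee C v w) : ℤˣ) : ℤ)

/-- The Lie algebra: `Rⁿ` (the simple coroots are the standard basis) plus one coordinate for every root. -/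
abbrev LV (C : Matrix (Fin n) (Fin n) ℤ) (R : Type) : Type := (Fin n → R) × (Rt C → R)

variable (C : Matrix (Fin n) (Fin n) ℤ)

theorem Q_add_left (u v w : Fin n → ℤ) : Q C (u + v) w = Q C u w + Q C v w := by
  simp only [Q, Pi.add_apply, add_mul, Finset.sum_add_distrib]

theorem Q_add_right (u v w : Fin n → ℤ) : Q C u (v + w) = Q C u v + Q C u w := by
  simp only [Q, Pi.add_apply, mul_add, Finset.sum_add_distrib]

theorem Q_neg_left (v w : Fin n → ℤ) : Q C (-v) w = -Q C v w := by
  simp only [Q, Pi.neg_apply, neg_mul, Finset.sum_neg_distrib]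

theorem Q_neg_right (v w : Fin n → ℤ) : Q C v (-w) = -Q C v w := by
  simp only [Q, Pi.neg_apply, mul_neg, Finset.sum_neg_distrib]

theorem Q_sub_left (u v w : Fin n → ℤ) : Q C (u - v) w = Q C u w - Q C v w := by
  rw [sub_eq_add_neg, Q_add_left, Q_neg_left, ← sub_eq_add_neg]

theorem Q_sub_right (u v w : Fin n → ℤ) : Q C u (v - w) = Q C u v - Q C u w := by
  rw [sub_eq_add_neg, Q_add_right, Q_neg_right, ← sub_eq_add_neg]

theorem Q_smul_left (a : ℤ) (v w : Fin n → ℤ) : Q C (a • v) w = a * Q C v w := by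
  simp only [Q, Pi.smul_apply, smul_eq_mul, Finset.mul_sum, mul_assoc]

theorem Q_smul_right (a : ℤ) (v w : Fin n → ℤ) : Q C v (a • w) = a * Q C v w := by
  simp only [Q, Pi.smul_apply, smul_eq_mul, Finset.mul_sum]
  refine Finset.sum_congr rfl fun i _ => Finset.sum_congr rfl fun j _ => ?_
  ring

theorem ee_add_left (u v w : Fin n → ℤ) : ee C (u + v) w = ee C u w + ee C v w := by
  simp only [ee, Pi.add_apply, add_mul, Finset.sum_add_distrib]

theorem ee_add_right (u v w : Fin n → ℤ) : ee C u (v + w) = ee C u v + ee C u w := by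
  simp only [ee, Pi.add_apply, mul_add, Finset.sum_add_distrib]

theorem ee_neg_left (v w : Fin n → ℤ) : ee C (-v) w = -ee C v w := by
  simp only [ee, Pi.neg_apply, neg_mul, Finset.sum_neg_distrib]

theorem ee_neg_right (v w : Fin n → ℤ) : ee C v (-w) = -ee C v w := by
  simp only [ee, Pi.neg_apply, mul_neg, Finset.sum_neg_distrib]

theorem eps_add_left (u v w : Fin n → ℤ) : eps C (u + v) w = eps C u w * eps C v w := by
  simp only [eps, ee_add_left, Int.negOnePow_add, Units.val_mul]

theorem eps_add_right (u v w : Fin n → ℤ) : eps C u (v + w) = eps C u v * eps C u w := by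
  simp only [eps, ee_add_right, Int.negOnePow_add, Units.val_mul]

theorem eps_neg_left (v w : Fin n → ℤ) : eps C (-v) w = eps C v w := by
  simp only [eps, ee_neg_left, Int.negOnePow_neg]

theorem eps_neg_right (v w : Fin n → ℤ) : eps C v (-w) = eps C v w := by
  simp only [eps, ee_neg_right, Int.negOnePow_neg]

theorem eps_sub_left (u v w : Fin n → ℤ) : eps C (u - v) w = eps C u w * eps C v w := by
  rw [sub_eq_add_neg, eps_add_left, eps_neg_left]

theorem eps_sub_right (u v w : Fin n → ℤ) : eps C u (v - w) = eps C u v * eps C u w := by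
  rw [sub_eq_add_neg, eps_add_right, eps_neg_right]

theorem eps_sq (v w : Fin n → ℤ) : eps C v w * eps C v w = 1 := by
  rw [eps, ← Units.val_mul, ← Int.negOnePow_add, Int.negOnePow_even _ ⟨_, rfl⟩, Units.val_one]

theorem eps_or (v w : Fin n → ℤ) : eps C v w = 1 ∨ eps C v w = -1 := by
  rcases Int.units_eq_one_or (Int.negOnePow (ee C v w)) with h | h
  · left; rw [eps, h, Units.val_one]
  · right; rw [eps, h, Units.val_neg, Units.val_one]

instance : Neg (Rt C) := ⟨fun α => ⟨-α.1, by rw [Q_neg_left, Q_neg_right, neg_neg]; exact α.2⟩⟩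

@[simp] theorem neg_val (α : Rt C) : (-α).1 = -α.1 := rfl

@[simp] theorem rt_neg_neg (α : Rt C) : - -α = α := Subtype.ext (neg_neg _)

end Lattice

section Group

variable {n : ℕ} (C : Matrix (Fin n) (Fin n) ℤ)

/-- A root as a vector over `R`. -/
def rt {C : Matrix (Fin n) (Fin n) ℤ} (R : Type) [CommRing R] (α : Rt C) : Fin n → R := fun i => (α.1 i : R)

/-- The bilinear form over `R`. -/
def bl {R : Type} [CommRing R] (h k : Fin n → R) : R := ∑ i, ∑ j, h i * (C i j : R) * k j

variable {C}

/-- A function on roots extended by zero to the lattice. -/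
def ext {R : Type} [CommRing R] (φ : Rt C → R) (w : Fin n → ℤ) : R := if h : Q C w w = 2 then φ ⟨w, h⟩ else 0

variable (C)

/-- The root vector `t e_α`. -/
def ev {R : Type} [CommRing R] (α : Rt C) (t : R) : LV C R := (0, Pi.single α t)

variable {C}

/-- The action of `x_α(t) = exp (t ad e_α)` on `(h, φ)`:
`x_α(t) e_γ = e_γ + t ε(α,γ) e_{α+γ}` (`α + γ` a root), `x_α(t) e_{-α} = e_{-α} - t α + t² e_α`,
`x_α(t) e_γ = e_γ` for the other roots `γ`, and `x_α(t) h = h - t (h,α) e_α`. -/
def xf {R : Type} [CommRing R] (α : Rt C) (t : R) (v : LV C R) : LV C R :=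
  (v.1 - (t * v.2 (-α)) • rt R α,
   fun γ => v.2 γ + t * (eps C α.1 (γ.1 - α.1) : R) * ext v.2 (γ.1 - α.1) +
     (if γ = α then -(t * bl C v.1 (rt R α)) + t ^ 2 * v.2 (-α) else 0))

/-- The Chevalley group of adjoint type over the field `F`: the group generated by all `x_α(t)`. -/
def EG (C : Matrix (Fin n) (Fin n) ℤ) (F : Type) [Field F] : Subgroup (LV C F ≃ₗ[F] LV C F) :=
  Subgroup.closure {g | ∃ (α : Rt C) (t : F), ∀ v, g v = xf α t v}

end Group

end

end Pool.Agent.EX
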