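import Pool.Agent.helper32.EX.Basic

/-!
# Project ex (MP_561ff4_al): E6(q), E7(q), E8(q). Specification, blocks A - E (helper32)

THEOREM. `S = E_n(q)`, `n = 6, 7, 8`, `x ≠ 1` any automorphism of `S`, `r` an odd prime: `r ∣ q(q^4-1) ⇒ β_r(x) ≤ 4`, `r ∣ q^6-1 ⇒ β_r(x) ≤ 6`.

Rules: `XX_stmt` is proved in `Pool/Agent/<seat>/EX/XX.lean`: `import Pool.Agent.helper32.EX.SpecA`, `namespace Pool.Agent.EX`,
`theorem XX (h : YY_stmt) ... : XX_stmt`; hypotheses: any EARLIER statements of this file (take as few as possible; the docstring names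
the useful ones). Auxiliary lemmas are prefixed `XX_`. No double quotes, no `syntax`/`macro`/`notation`, no `native_decide`.

`Defs.lean`, `Basic.lean` have the API: `Q_add_left`, .., `Q_comm`, `Q_expand` (`Q v w = ∑ w_i Q(v, α_i)`), `bd` (`-2 ≤ Q ≤ 2`), `Q_eq_two`, `Q_eq_neg_two`,
`Q_add_self`, `Q_sub_self`, `eps_*`, `eps_self`, `eps_symm_even`, `eps_symm_odd`, `LV_ind` (induction on vectors), `br_*`, `fo_*`, `br_ev_add`, `br_ev_neg`, `br_ev_zero`,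
`br_h_ev`, `br_ev_h`, `br_h_h`, `fo_ev`, `fo_h`, `fo_comm`, `xf_xf`, `xl_add`, `xl_inj`, `xl_mem`, `EG_eq`, `rt_ne_zero`.
Statements with `[Fact (Dyn C)]`: destruct with `intro n C hC ..`; the fields are `hC.out.symm`, `hC.out.diag`, `hC.out.off`, `hC.out.pos`, `hC.out.conn`, `hC.out.ne`.
-/

set_option autoImplicit false
set_option linter.unusedVariables false
set_option linter.unusedSectionVars false

namespace Pool.Agent.EX

noncomputable section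

/-! ## A. The root lattice -/

/-- SGN (a root is positive or negative). `v = v⁺ - v⁻` (`v⁺ = max v 0`, `v⁻ = max (-v) 0`, disjoint supports), `Q(v⁺, v⁻) ≤ 0` since all off-diagonal entries of `C` are `≤ 0`
and `v⁺_i v⁻_i = 0`. `Q` is even (`ee_self`) and positive definite, so a nonzero vector has norm `≥ 2`; if both were nonzero, `2 = Q(v,v) = Q(v⁺,v⁺) + Q(v⁻,v⁻) - 2Q(v⁺,v⁻) ≥ 4`. -/
def SGN_stmt : Prop := ∀ {n : ℕ} (C : Matrix (Fin n) (Fin n) ℤ) [Fact (Dyn C)] (α : Rt C), Pos α ∨ Pos (-α)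

/-- SIM (uses SGN). If `α > 0`, `α ≠ α_i` then `α` has a positive coordinate `j ≠ i` (otherwise `α = c α_i`, norm `2c² = 2`, `c = 1`), and `rf α_i α = α - Q α_i` has the same coordinate `j`,
so it is positive by SGN. -/
def SIM_stmt : Prop := ∀ {n : ℕ} (C : Matrix (Fin n) (Fin n) ℤ) [Fact (Dyn C)] (α : Rt C) (i : Fin n),
  Pos α → α ≠ sm C i → Pos (rf (sm C i) α)

/-- DES. `2 = Q(α,α) = ∑ α_i Q(α, α_i)` (`Q_expand`) with `α_i ≥ 0`: some `Q(α,α_i) > 0`, so it is `1` (or `2`, and then `α = α_i`, `Q_eq_two`). -/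
def DES_stmt : Prop := ∀ {n : ℕ} (C : Matrix (Fin n) (Fin n) ℤ) [Fact (Dyn C)] (α : Rt C),
  Pos α → (∀ i, α ≠ sm C i) → ∃ i, Q C α.1 (sm C i).1 = 1

/-- DM1. Take a root of maximal height (`Finite (Rt C)`, nonempty by `sm C ⟨0, _⟩`): if `Q(θ, α_i) < 0` then it is `-1` or `-2`, and `rf α_i θ = θ - Q α_i` has larger height. -/
def DM1_stmt : Prop := ∀ {n : ℕ} (C : Matrix (Fin n) (Fin n) ℤ) [Fact (Dyn C)], ∃ θ : Rt C, Dom θ

/-- DM2 (uses SGN). `θ` dominant. `θ > 0`: otherwise `-θ > 0` and `2 = Q(θ,θ) = -∑ (-θ)_i Q(θ,α_i) ≤ 0`. Full support: let `s = {i | 0 < θ_i}` (nonempty); if `i ∈ s`, `C i j ≠ 0`, `j ∉ s`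
then `θ_j = 0`, `Q(θ,α_j) = ∑_k θ_k C_kj ≤ θ_i C_ij < 0` (`Q_single`); so by `conn` all `θ_i > 0`. -/
def DM2_stmt : Prop := ∀ {n : ℕ} (C : Matrix (Fin n) (Fin n) ℤ) [Fact (Dyn C)] (θ : Rt C), Dom θ →
  (∀ i, 0 < θ.1 i) ∧ (∀ β : Rt C, Pos β → 0 ≤ Q C θ.1 β.1)

/-- DM3 (uses SGN, DM2). Two dominant roots `θ, β`: `Q(θ,β) = ∑ θ_i Q(β, α_i) > 0` (`θ_i > 0`, some `Q(β,α_i) > 0` as `Q(β,β) = 2`). If `θ ≠ β` it is `1` and `θ - β` is a root; by SGN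
`θ - β > 0` (or `β - θ > 0`), and `Q(β, θ - β) = -1 < 0` contradicts DM2 (resp. `Q(θ, β - θ) = -1`). -/
def DM3_stmt : Prop := ∀ {n : ℕ} (C : Matrix (Fin n) (Fin n) ℤ) [Fact (Dyn C)] (θ β : Rt C), Dom θ → Dom β → β = θ

/-- DM4 (uses SGN, SIM, DM1, DM3). Part 1: `β > 0`, `β ≠ θ` is not dominant (DM3), so some `Q(β,α_i) < 0`, and it is `-1` since `-2` means `β = -α_i`. Part 2: `β > 0`: by downward induction on the
height (finitely many roots) `β + α_i` (`i` from part 1) has height `ht β + 1`, is positive, and so `ht β < ht β + 1 ≤ ht θ`. `β < 0`: `ht β < 0 < ht θ`. -/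
def DM4_stmt : Prop := ∀ {n : ℕ} (C : Matrix (Fin n) (Fin n) ℤ) [Fact (Dyn C)] (θ : Rt C), Dom θ →
  (∀ β : Rt C, Pos β → β ≠ θ → ∃ i, Q C β.1 (sm C i).1 = -1) ∧ ∀ β : Rt C, β ≠ θ → ht β < ht θ

/-- WPR. `W` preserves `Q`, `-` and sums. `Subgroup.closure_induction`; for `rfe α_i`: `Q(rf α β, rf α γ) = Q(β,γ)` by bilinearity and `Q(α,α) = 2`; `rf α` is the restriction of a linear map. -/
def WPR_stmt : Prop := ∀ {n : ℕ} (C : Matrix (Fin n) (Fin n) ℤ) [Fact (Dyn C)], ∀ w ∈ W C,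
  (∀ α β : Rt C, Q C (w α).1 (w β).1 = Q C α.1 β.1) ∧ (∀ α : Rt C, w (-α) = -(w α)) ∧
  (∀ α β γ : Rt C, γ.1 = α.1 + β.1 → (w γ).1 = (w α).1 + (w β).1)

/-- WTR (uses SGN, SIM, DM4). Every root is `W`-conjugate to `θ`: for `β > 0` by induction on `ht θ - ht β` (if `β ≠ θ`, `rf α_i β = β + α_i` with `i` from DM4); for `β < 0`, go down with -β: `-β = w θ`... it is enough to see that
`α_j` and `-α_j` are conjugate (`rf α_j α_j = -α_j`) and that for `β < 0` the root `-β > 0` is conjugate to `θ`, so `β` is conjugate to `-θ` (`w(-α) = -w α`, WPR), and `θ` is conjugate to `α_j` (any `j`),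
`-θ` to `-α_j`, and `-α_j` to `α_j`. -/
def WTR_stmt : Prop := ∀ {n : ℕ} (C : Matrix (Fin n) (Fin n) ℤ) [Fact (Dyn C)] (θ : Rt C), Dom θ →
  ∀ β : Rt C, ∃ w ∈ W C, w β = θ

/-- WRF (uses WTR or DES, WPR). All reflections are in `W`: `β = w α_i` for some `w ∈ W` and `i` (by WTR both `β` and `α_i` are conjugate to `θ`), and `rfe (w α) = w * rfe α * w⁻¹`. -/
def WRF_stmt : Prop := ∀ {n : ℕ} (C : Matrix (Fin n) (Fin n) ℤ) [Fact (Dyn C)] (β : Rt C), rfe β ∈ W C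

/-- WLN (uses SGN, SIM, WPR; deletion). `w = s_{i1} .. s_{ik}` with `k` minimal (a product of a list of simple reflections, `Subgroup.closure`/`List`; `s_i` are involutions). If `k ≥ 1`: `γ := α_{ik}`.
`w γ > 0` by hypothesis, `w γ = -(s_{i1} .. s_{i(k-1)} γ)`, so `s_{i1} .. s_{i(k-1)} γ < 0` while `γ > 0`: there is `j` with `δ = s_{i(j+1)} .. s_{i(k-1)} γ > 0` and `s_{ij} δ < 0`, so `δ = α_{ij}` (SIM). With
`u = s_{i(j+1)} .. s_{i(k-1)}`: `α_{ij} = u γ`, `s_{ij} = u s_{ik} u⁻¹`, `s_{ij} u s_{ik} = u`, so `w` is a product of `k - 2` simple reflections: contradiction. So `k = 0`. -/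
def WLN_stmt : Prop := ∀ {n : ℕ} (C : Matrix (Fin n) (Fin n) ℤ) [Fact (Dyn C)], ∀ w ∈ W C,
  (∀ α : Rt C, Pos α → Pos (w α)) → w = 1

/-! ## B. The Lie algebra -/

/-- ANT. `[u,u] = 0`, `[u,v] = -[v,u]`. `LV_ind` twice for the second (values on basis vectors: `br_ev_ev` with `eps_symm_odd` for a root `α + β` (then `Q(α,β) = -1`)); for the first: `LV_ind` with the predicate
`br u u = 0` and `br (u+v) (u+v) = br u u + br v v + (br u v + br v u)`. -/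
def ANT_stmt : Prop := ∀ {n : ℕ} (C : Matrix (Fin n) (Fin n) ℤ) [Fact (Dyn C)] (R : Type) [CommRing R]
  (u v : LV C R), br u v = -br v u ∧ br u u = 0

/-- JAC (Jacobi; uses ANT). By `LV_ind` (additivity) it is enough to take basis vectors. (h,h,·): both sides clear (`br_h_ev`). (h, e_α, e_β): `Q(h, α+β) = Q(h,α) + Q(h,β)`. (e_α, e_β, e_γ), `μ = α+β+γ`, `a = Q(α,β)`, `b = Q(β,γ)`, `c = Q(γ,α)`;
all terms have weight `μ`, so they vanish unless `μ = 0` or `μ` is a root (norm `6 + 2(a+b+c)`): use `br_ev_ev` and the weights. `μ = 0`: `γ = -(α+β)`, `a = b = c = -1`, the three terms are `-ε(β,γ)α`, `-ε(γ,α)β`, `-ε(α,β)γ` and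
`ε(β,γ) = ε(γ,α) = ε(α,β)` (`eps_add_right`, `eps_neg_right`, `eps_self`, `eps_symm_odd`). `μ` a root, `a+b+c = -2`: up to cyclic rotation either `(a,b,c) = (-1,-1,0)`: terms `ε(β,γ)ε(α,β+γ) + ε(α,β)ε(γ,α+β) = 0`;
or `β = -α` with `g = Q(α,γ) = c = -b`, `g ∈ {-2..2}`: `g = 0`: all zero; `g = 1`: `[e_α,[e_{-α},e_γ]] = -e_γ`, `[e_γ,-α] = e_γ`; `g = -1`: `[e_{-α},[e_γ,e_α]] = e_γ`, `[e_γ,-α] = -e_γ`; `g = 2` (`γ = α`): `-2e_α + 0 + 2e_α`; `g = -2`: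
`0 + 2e_{-α} - 2e_{-α}`. (A brute force case split on `Q`-values `bd` is fine.) -/
def JAC_stmt : Prop := ∀ {n : ℕ} (C : Matrix (Fin n) (Fin n) ℤ) [Fact (Dyn C)] (R : Type) [CommRing R]
  (u v w : LV C R), br u (br v w) + br v (br w u) + br w (br u v) = 0

/-- INV (invariance of the form; uses ANT). `LV_ind` three times; `fo_ev`, `fo_h`. The only cases: (e_α,e_β,e_γ) with `α+β+γ = 0` (all `Q = -1`): `ε(α,β) = ε(β,γ)`; (h,e_α,e_{-α}), (e_α,h,e_{-α}), (e_α,e_{-α},h): `f([e_α,e_{-α}],h) = (α,h)`,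
`f(e_α,[e_{-α},h]) = (h,α)`. -/
def INV_stmt : Prop := ∀ {n : ℕ} (C : Matrix (Fin n) (Fin n) ℤ) [Fact (Dyn C)] (R : Type) [CommRing R]
  (u v w : LV C R), fo (br u v) w = fo u (br v w)

/-- SQR. `[e_α,[e_α,v]] = 2 f(e_α,v) e_α`: `LV_ind`; `v = e_{-α}`: `[e_α,-α] = 2e_α`; `v = e_β`, `Q(α,β) = -1`: `Q(α,α+β) = 1`, so `0`; `v = h`: `[e_α,e_α] = 0`. -/
def SQR_stmt : Prop := ∀ {n : ℕ} (C : Matrix (Fin n) (Fin n) ℤ) [Fact (Dyn C)] (R : Type) [CommRing R]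
  (α : Rt C) (v : LV C R), br (ev C α 1) (br (ev C α 1) v) = (2 * fo (ev C α 1) v) • ev C α 1

/-- COL. For `Q(α,β) = 1`: `[e_α,[e_β,v]] = f(e_α,v) e_β + f(e_β,v) e_α`. `LV_ind`: `v = h`: `0` (`br_ev_zero`); `v = e_γ`: if `γ ∉ {-α,-β}` both sides are `0` (`[e_β,e_γ] ≠ 0` needs `Q(β,γ) = -1`, `[e_α,e_{β+γ}] ≠ 0` needs `Q(α,β+γ) ∈ {-1,-2}`, so `Q(α,γ) ≤ -2`, or
`β+γ = -α` which is impossible because `β+α` is not a root); `γ = -α`: `β - α` is a root, `ε(β,-α)ε(α,β-α) = -ε(β,α)ε(α,β) = 1` (`eps_sub_right`, `eps_self`, `eps_symm_odd`); `γ = -β`: `[e_α,-β] = Q(α,β)e_α = e_α`. -/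
def COL_stmt : Prop := ∀ {n : ℕ} (C : Matrix (Fin n) (Fin n) ℤ) [Fact (Dyn C)] (R : Type) [CommRing R]
  (α β : Rt C), Q C α.1 β.1 = 1 → ∀ v : LV C R, br (ev C α 1) (br (ev C β 1) v) =
    fo (ev C α 1) v • ev C β 1 + fo (ev C β 1) v • ev C α 1

/-- XEF. `ex (t e_α) = x_α(t)`: compare coordinates (or `LV_ind`; both sides are additive in `v`: `xf_add`). `fo_ev`: `f(t e_α, v) = t v_{-α}`; `[t e_α, v]` has `H`-part `-(t v_{-α}) α` and root part `t ε(α,γ-α) ext v (γ-α) - [γ = α] t (v.1,α)`. -/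
def XEF_stmt : Prop := ∀ {n : ℕ} (C : Matrix (Fin n) (Fin n) ℤ) [Fact (Dyn C)] (R : Type) [CommRing R]
  (α : Rt C) (t : R) (v : LV C R), ex (ev C α t) v = xf α t v

/-- AUZ (uses JAC, ANT, INV, SQR). Over `ℤ`, `D = [e_α, ·]`, `E v = f(e_α,v) e_α`, `2E = D²` (SQR), `D³ = 0` (`D E = 0`). `D` is a derivation (JAC, ANT), so `D²[u,v] = [D²u,v] + 2[Du,Dv] + [u,D²v]`, `D³[u,v] = 3[D²u,Dv] + 3[Du,D²v]`; divide by `2` and `6`
(`ℤ`-vectors: coordinatewise cancellation, `smul_right_injective` or `NoZeroSMulDivisors ℤ`). -/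
def AUZ_stmt : Prop := ∀ {n : ℕ} (C : Matrix (Fin n) (Fin n) ℤ) [Fact (Dyn C)] (α : Rt C) (u v : LV C ℤ),
  br (fo (ev C α 1) u • ev C α 1) v + br (br (ev C α 1) u) (br (ev C α 1) v) + br u (fo (ev C α 1) v • ev C α 1) =
    fo (ev C α 1) (br u v) • ev C α 1 ∧
  br (br (ev C α 1) u) (fo (ev C α 1) v • ev C α 1) + br (fo (ev C α 1) u • ev C α 1) (br (ev C α 1) v) = 0

/-- AUR (uses AUZ). The same over every commutative ring `R`: both identities are additive in `u`, `v` (`LV_ind`; for `(Pi.single i t, 0) = t • (Pi.single i 1, 0)` and `ev α t = t • ev α 1` pull out `t`) and the basis vectors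
`(Pi.single i 1, 0)`, `ev α 1` are images of the integral ones under the coordinatewise cast `c : LV C ℤ → LV C R`, which satisfies `c (br u v) = br (c u) (c v)`, `fo (c u) (c v) = (fo u v : R)`, `c (a • u) = (a : R) • c u`, `c (u + v) = c u + c v`. -/
def AUR_stmt : Prop := ∀ {n : ℕ} (C : Matrix (Fin n) (Fin n) ℤ) [Fact (Dyn C)] (R : Type) [CommRing R]
  (α : Rt C) (u v : LV C R),
  br (fo (ev C α 1) u • ev C α 1) v + br (br (ev C α 1) u) (br (ev C α 1) v) + br u (fo (ev C α 1) v • ev C α 1) =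
    fo (ev C α 1) (br u v) • ev C α 1 ∧
  br (br (ev C α 1) u) (fo (ev C α 1) v • ev C α 1) + br (fo (ev C α 1) u • ev C α 1) (br (ev C α 1) v) = 0

/-- AUT (uses AUR, XEF, JAC, ANT, INV, SQR). `x_α(t)` preserves `[ , ]` and `f`: `x_α(t) u = u + t D u + t² E u` (XEF, `ev_eq`, `br_smul_left`, `fo_smul_left`); expand `[x u, x v]`: the coefficient of `t` is `[Du,v] + [u,Dv] = D[u,v]` (JAC, ANT), of `t²`, `t³` AUR, of `t⁴`
`[e_α,e_α] = 0`. For `f`: `f(Du,v) + f(u,Dv) = 0` (INV, ANT), `f(Eu,v) + f(Du,Dv) + f(u,Ev) = 0` (`f(Du,Dv) = -f(u,D²v) = -2 f(e,v) f(u,e)`), `f(Du,Ev) + f(Eu,Dv) = 0` (`f(e,Du) = f([e,e],u) = 0`), `f(e,e) = 0`. -/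
def AUT_stmt : Prop := ∀ {n : ℕ} (C : Matrix (Fin n) (Fin n) ℤ) [Fact (Dyn C)] (R : Type) [CommRing R]
  (α : Rt C) (t : R) (u v : LV C R), br (xf α t u) (xf α t v) = xf α t (br u v) ∧ fo (xf α t u) (xf α t v) = fo u v

/-! ## C. The group: first relations. `F` is a field -/

section C

variable {n : ℕ} {C : Matrix (Fin n) (Fin n) ℤ} [hC : Fact (Dyn C)] {F : Type} [Field F]

/-- `g` is monomial and permutes the root lines like `w`. -/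
def Mono (g : LV C F ≃ₗ[F] LV C F) (w : Equiv.Perm (Rt C)) : Prop :=
  ∀ β, ∃ c : F, c ≠ 0 ∧ g (ev C β 1) = ev C (w β) c

/-- `n_α(t)` -/
def nn (α : Rt C) (t : F) : LV C F ≃ₗ[F] LV C F := xl α t * xl (-α) t⁻¹ * xl α t

/-- diagonal elements of the group -/
def IsH (h : LV C F ≃ₗ[F] LV C F) : Prop := h ∈ EG C F ∧ Mono h 1

/-- monomial elements of the group, with Weyl group image `w` -/
def IsN (g : LV C F ≃ₗ[F] LV C F) (w : Equiv.Perm (Rt C)) : Prop := g ∈ EG C F ∧ w ∈ W C ∧ Mono g w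

end C

/-- `⟨X_α : α > 0, ht α ≥ k⟩` -/
def UK {n : ℕ} (C : Matrix (Fin n) (Fin n) ℤ) [hC : Fact (Dyn C)] (F : Type) [Field F] (k : ℤ) :
    Subgroup (LV C F ≃ₗ[F] LV C F) := Subgroup.closure {g | ∃ (α : Rt C) (t : F), Pos α ∧ k ≤ ht α ∧ g = xl α t}

/-- `U = ⟨X_α : α > 0⟩` -/
def UU {n : ℕ} (C : Matrix (Fin n) (Fin n) ℤ) [hC : Fact (Dyn C)] (F : Type) [Field F] :
    Subgroup (LV C F ≃ₗ[F] LV C F) := Subgroup.closure {g | ∃ (α : Rt C) (t : F), Pos α ∧ g = xl α t}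

/-- `U_i = ⟨X_α : α > 0, α ≠ α_i⟩` -/
def UI {n : ℕ} (C : Matrix (Fin n) (Fin n) ℤ) [hC : Fact (Dyn C)] (F : Type) [Field F] (i : Fin n) :
    Subgroup (LV C F ≃ₗ[F] LV C F) :=
  Subgroup.closure {g | ∃ (α : Rt C) (t : F), Pos α ∧ α ≠ sm C i ∧ g = xl α t}

/-- elements `u h`, `u ∈ U`, `h` diagonal -/
def IsB {n : ℕ} {C : Matrix (Fin n) (Fin n) ℤ} [hC : Fact (Dyn C)] {F : Type} [Field F]
    (g : LV C F ≃ₗ[F] LV C F) : Prop := ∃ u ∈ UU C F, ∃ h, IsH h ∧ g = u * h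

/-- the flag: `V_k` is spanned by the `e_α`, `ht α ≥ k`, and by `Fⁿ` if `k ≤ 0` -/
def VG {n : ℕ} (C : Matrix (Fin n) (Fin n) ℤ) (F : Type) [Field F] (k : ℤ) : Submodule F (LV C F) where
  carrier := {v | (0 < k → v.1 = 0) ∧ ∀ α : Rt C, ∑ i, α.1 i < k → v.2 α = 0}
  add_mem' := by
    rintro a b ⟨ha1, ha2⟩ ⟨hb1, hb2⟩
    refine ⟨fun h => ?_, fun α h => ?_⟩
    · rw [Prod.fst_add, ha1 h, hb1 h, add_zero]
    · rw [Prod.snd_add, Pi.add_apply, ha2 α h, hb2 α h, add_zero]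
  zero_mem' := ⟨fun _ => rfl, fun _ _ => rfl⟩
  smul_mem' := by
    rintro c a ⟨ha1, ha2⟩
    refine ⟨fun h => ?_, fun α h => ?_⟩
    · rw [Prod.smul_fst, ha1 h, smul_zero]
    · rw [Prod.smul_snd, Pi.smul_apply, ha2 α h, smul_zero]

/-- GAU (uses AUT). Every `g ∈ EG C F` preserves `[ , ]` and `f` (`Subgroup.closure_induction`, `EG_eq`). -/
def GAU_stmt : Prop := ∀ {n : ℕ} (C : Matrix (Fin n) (Fin n) ℤ) [Fact (Dyn C)] (F : Type) [Field F],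
  ∀ g ∈ EG C F, (∀ u v : LV C F, g (br u v) = br (g u) (g v)) ∧ ∀ u v : LV C F, fo (g u) (g v) = fo u v

/-- GCJ (uses GAU, XEF). `g x_α(t) g⁻¹ = ex(t g e_α)`, and generally `g (ex w (g⁻¹ v)) = ex (g w) v`. -/
def GCJ_stmt : Prop := ∀ {n : ℕ} (C : Matrix (Fin n) (Fin n) ℤ) [Fact (Dyn C)] (F : Type) [Field F],
  ∀ g ∈ EG C F, (∀ w v : LV C F, g (ex w (g⁻¹ v)) = ex (g w) v) ∧
  ∀ (α : Rt C) (t : F) (v : LV C F), (g * xl α t * g⁻¹) v = ex (g (ev C α t)) v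

/-- LIN (uses COL, XEF, INV, ANT). For `Q(α,β) = 1`: `ex (s e_α + t e_β) = x_α(s) x_β(t)`. Expand both sides with `x_α(s)v = v + s[e_α,v] + s² f(e_α,v) e_α`; the mixed terms: `st [e_α,[e_β,v]] = st (f(e_α,v)e_β + f(e_β,v)e_α)` (COL); `[e_α,e_β] = 0`,
`f(e_α,e_β) = 0`, `f(e_α,[e_β,v]) = f([e_α,e_β],v) = 0`. -/
def LIN_stmt : Prop := ∀ {n : ℕ} (C : Matrix (Fin n) (Fin n) ℤ) [Fact (Dyn C)] (F : Type) [Field F]
  (α β : Rt C), Q C α.1 β.1 = 1 → ∀ (s t : F) (v : LV C F), ex (ev C α s + ev C β t) v = xl α s (xl β t v)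

/-- RCM (commutator relations; uses GCJ, LIN, XEF). `x_α(s) e_β = e_β + s ε(α,β) e_{α+β}` if `Q(α,β) = -1` and `= e_β` if `Q(α,β) ≥ 0` (from `xf`, or XEF with `br_ev_add`, `br_ev_zero`); then `x_α(s)x_β(t)x_α(s)⁻¹ = ex(t x_α(s)e_β)` (GCJ) and LIN for `β, α+β`. -/
def RCM_stmt : Prop := ∀ {n : ℕ} (C : Matrix (Fin n) (Fin n) ℤ) [Fact (Dyn C)] (F : Type) [Field F]
  (α β : Rt C) (s t : F), (∀ γ : Rt C, γ.1 = α.1 + β.1 →
      xl α s * xl β t * (xl α s)⁻¹ = xl β t * xl γ ((eps C α.1 β.1 : F) * s * t)) ∧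
    (0 ≤ Q C α.1 β.1 → xl α s * xl β t = xl β t * xl α s)

/-- NNM. `n_α(t) e_β = c e_{rf α β}`, `c ≠ 0`. Cases `Q(α,β)`: `0`: fixed; `-1`: `c = t ε(α,β)`; `1`: `c = t⁻¹ ε(α,β)` (check the sign; only `c ≠ 0` matters); `β = α`: `c = t⁻²`; `β = -α`: `c = t²`. Direct from `xf` / `br_ev_*` (paper: x_α(t)e_β = e_β + tε e_{α+β},
x_{-α}(s) e_{α+β} = e_{α+β} - sε e_β, `s = t⁻¹`). -/
def NNM_stmt : Prop := ∀ {n : ℕ} (C : Matrix (Fin n) (Fin n) ℤ) [Fact (Dyn C)] (F : Type) [Field F]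
  (α : Rt C) (t : F), t ≠ 0 → Mono (nn α t) (rfe α) ∧ nn α t ∈ EG C F

/-- MCJ (uses GCJ, XEF). Conjugation by a monomial element: `g x_β(t) g⁻¹ = x_{wβ}(c t)`. -/
def MCJ_stmt : Prop := ∀ {n : ℕ} (C : Matrix (Fin n) (Fin n) ℤ) [Fact (Dyn C)] (F : Type) [Field F]
  (g : LV C F ≃ₗ[F] LV C F) (w : Equiv.Perm (Rt C)), g ∈ EG C F → Mono g w → ∀ β : Rt C, ∃ c : F, c ≠ 0 ∧
    ∀ t : F, g * xl β t * g⁻¹ = xl (w β) (c * t)

/-- MMU. Products and inverses of monomial elements: `Mono g w`, `Mono g' w'` give `Mono (g*g') (w*w')`, `Mono g⁻¹ w⁻¹`, `Mono 1 1`; so the same for `IsN`, `IsH`. -/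
def MMU_stmt : Prop := ∀ {n : ℕ} (C : Matrix (Fin n) (Fin n) ℤ) [Fact (Dyn C)] (F : Type) [Field F],
  (∀ (g g' : LV C F ≃ₗ[F] LV C F) (w w' : Equiv.Perm (Rt C)), Mono g w → Mono g' w' → Mono (g * g') (w * w')) ∧
  (∀ (g : LV C F ≃ₗ[F] LV C F) (w : Equiv.Perm (Rt C)), Mono g w → Mono g⁻¹ w⁻¹) ∧
  Mono (1 : LV C F ≃ₗ[F] LV C F) 1

/-- HID (uses GAU). `g ∈ EG` fixing all `e_α` is `1`: `g` fixes `[e_α,e_{-α}] = (-α, 0)`, in particular `(Pi.single i 1, 0)` (`α = α_i`); `LV_ind`. -/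
def HID_stmt : Prop := ∀ {n : ℕ} (C : Matrix (Fin n) (Fin n) ℤ) [Fact (Dyn C)] (F : Type) [Field F],
  ∀ g ∈ EG C F, (∀ α : Rt C, g (ev C α 1) = ev C α 1) → g = 1

/-- NEG (`x_{-α}(s)` for `s ≠ 0`; uses NNM only for the membership). `x_{-α}(s) = x_α(-s⁻¹) n_α(s⁻¹) x_α(-s⁻¹)` by definition of `nn`. -/
def NEG_stmt : Prop := ∀ {n : ℕ} (C : Matrix (Fin n) (Fin n) ℤ) [Fact (Dyn C)] (F : Type) [Field F]
  (α : Rt C) (s : F), s ≠ 0 → xl (-α) s = xl α (-s⁻¹) * nn α s⁻¹ * xl α (-s⁻¹)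

end

end Pool.Agent.EX
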