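import Pool.Agent.helper32.EX.SpecA

/-!
# Project ex (MP_561ff4_al): E6(q), E7(q), E8(q). Specification, blocks D, E (helper32): Bruhat, Sylow, root subgroups, pairs

Same rules as in `SpecA.lean` (import `Pool.Agent.helper32.EX.SpecD`). `U = UU C F`, `U_i = UI C F i`, `s_i = rfe (sm C i)`, `x_i(t) = xl (sm C i) t`.
-/

set_option autoImplicit false
set_option linter.unusedVariables false
set_option linter.unusedSectionVars false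

namespace Pool.Agent.EX

noncomputable section

/-! ## D. Bruhat decomposition, Sylow subgroups -/

/-- HCU (uses MCJ, MMU). Diagonal elements normalise `U`, `U_i`, `UK k` (generators: `h x_α(t) h⁻¹ = x_α(c t)`; closure induction). -/
def HCU_stmt : Prop := ∀ {n : ℕ} (C : Matrix (Fin n) (Fin n) ℤ) [Fact (Dyn C)] (F : Type) [Field F]
  (h : LV C F ≃ₗ[F] LV C F), IsH h → (∀ u ∈ UU C F, h * u * h⁻¹ ∈ UU C F) ∧
    (∀ i, ∀ u ∈ UI C F i, h * u * h⁻¹ ∈ UI C F i) ∧ ∀ k, ∀ u ∈ UK C F k, h * u * h⁻¹ ∈ UK C F k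

/-- UIN (uses RCM, SIM). `X_i`, `X_{-i}` normalise `U_i`: for a generator `x_α(s)` of `U_i` and `γ = ±α_i`: `Q(γ,α) = -2` is impossible; if `Q(γ,α) = -1` then `α + γ = rf α_i α` is a positive root `≠ α_i` (SIM) and RCM; if `≥ 0` they commute. -/
def UIN_stmt : Prop := ∀ {n : ℕ} (C : Matrix (Fin n) (Fin n) ℤ) [Fact (Dyn C)] (F : Type) [Field F] (i : Fin n) (t : F),
  ∀ u ∈ UI C F i, xl (sm C i) t * u * (xl (sm C i) t)⁻¹ ∈ UI C F i ∧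
    xl (-(sm C i)) t * u * (xl (-(sm C i)) t)⁻¹ ∈ UI C F i

/-- NIN (uses MCJ, SIM). Monomial elements over `s_i` normalise `U_i` (`rf α_i α ≠ α_i` as `α ≠ -α_i`). -/
def NIN_stmt : Prop := ∀ {n : ℕ} (C : Matrix (Fin n) (Fin n) ℤ) [Fact (Dyn C)] (F : Type) [Field F] (i : Fin n)
  (m : LV C F ≃ₗ[F] LV C F), m ∈ EG C F → Mono m (rfe (sm C i)) → ∀ u ∈ UI C F i, m * u * m⁻¹ ∈ UI C F i

/-- UFA (uses UIN). `U = U_i X_i`: closure induction on `u ∈ U` (multiplying by a generator and by an inverse on the left; an element `x_i(s)` is moved past `u' ∈ U_i` with UIN). -/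
def UFA_stmt : Prop := ∀ {n : ℕ} (C : Matrix (Fin n) (Fin n) ℤ) [Fact (Dyn C)] (F : Type) [Field F] (i : Fin n),
  ∀ u ∈ UU C F, ∃ u' ∈ UI C F i, ∃ t : F, u = u' * xl (sm C i) t

/-- NWE (uses NNM, MMU). Every `w ∈ W` is the image of a monomial element of the group. -/
def NWE_stmt : Prop := ∀ {n : ℕ} (C : Matrix (Fin n) (Fin n) ℤ) [Fact (Dyn C)] (F : Type) [Field F],
  ∀ w ∈ W C, ∃ g : LV C F ≃ₗ[F] LV C F, IsN g w

/-- `g = u n u'` with `u, u' ∈ U`, `n` monomial. -/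
def DC {n : ℕ} {C : Matrix (Fin n) (Fin n) ℤ} [hC : Fact (Dyn C)] {F : Type} [Field F]
    (g : LV C F ≃ₗ[F] LV C F) : Prop :=
  ∃ u ∈ UU C F, ∃ (m : LV C F ≃ₗ[F] LV C F) (w : Equiv.Perm (Rt C)), IsN m w ∧ ∃ u' ∈ UU C F, g = u * m * u'

/-- BR1 (uses SGN, WPR, MMU, MCJ, NNM, NEG, NIN, UFA). `m` monomial over `s_i`, `g = u n u'`, `n` over `w`. Write `u = u₁ x_i(t)`, `u₁ ∈ U_i`: `m g = (m u₁ m⁻¹) m x_i(t) n u'`. If `w⁻¹ α_i > 0`: `x_i(t) n = n (n⁻¹ x_i(t) n)`, `n⁻¹ x_i(t) n ∈ X_{w⁻¹α_i} ⊆ U`,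
and `m n` is monomial over `s_i w`. If `w⁻¹ α_i < 0` (SGN) and `t ≠ 0` (`t = 0` is trivial: `m g = (m u₁ m⁻¹) (m n) u'`): `m x_i(t) m⁻¹ = x_{-α_i}(s)`, `s ≠ 0` (MCJ, `rf α_i α_i = -α_i`) `= x_i(a) n' x_i(a)` (NEG), `n' = nn`; and `x_i(a) (m n) = (m n) v`, `v = (mn)⁻¹ x_i(a) (mn) ∈ X_{-w⁻¹α_i} ⊆ U`.
So `m g = (m u₁ m⁻¹) x_i(a) (n' m n) (v u')`. (`U_i ≤ U`; `W` contains `rfe (sm C i)`.) -/
def BR1_stmt : Prop := ∀ {n : ℕ} (C : Matrix (Fin n) (Fin n) ℤ) [Fact (Dyn C)] (F : Type) [Field F] (i : Fin n)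
  (m g : LV C F ≃ₗ[F] LV C F), m ∈ EG C F → Mono m (rfe (sm C i)) → DC g → DC (m * g)

/-- BRU (Bruhat; uses BR1, NEG, NNM, MCJ, MMU, SGN, SIM, DES, WPR). `DC (x_α(t) g)` if `DC g`: trivial for `α > 0`; for `α = -α_i`, `t ≠ 0`: NEG and BR1 (`nn` is monomial over `s_i`); for `α = -β`, `β > 0` not simple: induction on `ht β`: `i` with `Q(β,α_i) = 1` (DES),
`m = nn α_i 1`, `x_{-β}(t) = m x_{-rf α_i β}(t') m⁻¹` (MCJ, WPR), `m⁻¹` is also monomial over `s_i`: BR1 twice and the induction hypothesis for `rf α_i β = β - α_i`. Then closure induction (`EG_eq`, the inverse of `x_α(t)` is `x_α(-t)`); `DC 1` by MMU. -/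
def BRU_stmt : Prop := ∀ {n : ℕ} (C : Matrix (Fin n) (Fin n) ℤ) [Fact (Dyn C)] (F : Type) [Field F],
  ∀ g ∈ EG C F, DC g

/-- FLK. `u ∈ UK k`, `k ≥ 1`, `v ∈ VG j`: `u v - v ∈ VG (j + k)`; and `u ∈ U`: `u v - v ∈ VG (j+1)`. For a generator `x_α(t)`, `ht α ≥ k ≥ 1`: look at `xf`: the `H`-part changes only if `v_{-α} ≠ 0`, so `j ≤ -ht α`, `j + k ≤ 0`; the coordinate `γ` changes by a multiple of `v_{γ-α}`
(height `≥ j`), for `γ = α` by multiples of `(v.1, α)` (zero if `0 < j`, and `ht α ≥ k + j` if `j ≤ 0`) and of `v_{-α}`. Products: `u u' v - v = u (u' v - v) + (u v - v)`, inverses: `u⁻¹ v - v = -u⁻¹ (u v - v)`; all `VG j` are mapped to themselves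
(`VG (j+k) ≤ VG j` for `k ≥ 0`). -/
def FLK_stmt : Prop := ∀ {n : ℕ} (C : Matrix (Fin n) (Fin n) ℤ) [Fact (Dyn C)] (F : Type) [Field F],
  (∀ k : ℤ, 1 ≤ k → ∀ u ∈ UK C F k, ∀ j : ℤ, ∀ v ∈ VG C F j, u v - v ∈ VG C F (j + k)) ∧
  (∀ u ∈ UU C F, ∀ j : ℤ, ∀ v ∈ VG C F j, u v - v ∈ VG C F (j + 1) ∧ u v ∈ VG C F j)

/-- NBP (uses FLK, GAU). Elements of `B` preserve all `VG j`; `x_{-β}(t)`, `β > 0`, is in `B` only for `t = 0`: `x_{-β}(t) e_β` has `H`-part `t β` (`xf_ev_neg` for `-β`), nonzero by `rt_ne_zero` if `t ≠ 0`, but `e_β ∈ VG (ht β)`, `ht β > 0`. A diagonal `h` preserves `VG j` (it multiplies the coordinates `e_α` by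
nonzero scalars and fixes the `H`-part: `h [e_α,e_{-α}] = c_α c_{-α} [e_α, e_{-α}]`, `c_α c_{-α} = f(h e_α, h e_{-α}) = 1`). -/
def NBP_stmt : Prop := ∀ {n : ℕ} (C : Matrix (Fin n) (Fin n) ℤ) [Fact (Dyn C)] (F : Type) [Field F],
  (∀ b : LV C F ≃ₗ[F] LV C F, IsB b → ∀ j : ℤ, ∀ v ∈ VG C F j, b v ∈ VG C F j) ∧
  ∀ (β : Rt C) (t : F), Pos β → IsB (xl (-β) t) → t = 0

/-- UPG (uses FLK). `U` is a `p`-group: `N = u - 1` maps `VG j` to `VG (j+1)`, `VG j = 0` for large `j` and `VG j = ⊤` for small `j` (finitely many roots), so `N^M = 0` for some `M`; for `p^k ≥ M`: `u^(p^k) = (1 + N)^(p^k) = 1 + N^(p^k) = 1` (`add_pow_char_pow` in the endomorphism ring, `CharP`). -/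
def UPG_stmt : Prop := ∀ {n : ℕ} (C : Matrix (Fin n) (Fin n) ℤ) [Fact (Dyn C)] (F : Type) [Field F]
  (p : ℕ), p.Prime → CharP F p → ∀ u ∈ UU C F, ∃ k : ℕ, u ^ (p ^ k) = 1

/-- HPQ (uses HID, MMU). `h` diagonal: `h^(q-1) = 1`, `q = |F|`: `h^(q-1) e_α = c_α^(q-1) e_α = e_α`. -/
def HPQ_stmt : Prop := ∀ {n : ℕ} (C : Matrix (Fin n) (Fin n) ℤ) [Fact (Dyn C)] (F : Type) [Field F] [Finite F]
  (h : LV C F ≃ₗ[F] LV C F), IsH h → h ^ (Nat.card F - 1) = 1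

/-- NUB (uses BRU, MCJ, NBP, WLN, SGN, HCU, MMU). `g = u n u'` normalises `U`, so `n` does; `n x_α(t) n⁻¹ = x_{wα}(ct) ∈ U` for `α > 0`; if `wα < 0`: `x_{wα}(c) ∈ U ⊆ B` contradicts NBP. So `w = 1` (WLN), `n` is diagonal and `g = u (n u' n⁻¹) n`. -/
def NUB_stmt : Prop := ∀ {n : ℕ} (C : Matrix (Fin n) (Fin n) ℤ) [Fact (Dyn C)] (F : Type) [Field F],
  ∀ g ∈ EG C F, (∀ u ∈ UU C F, g * u * g⁻¹ ∈ UU C F) → IsB g

/-- SYL (uses UPG, NUB, HPQ, HCU). `EG C F` is finite (`LV C F` is finite). `P` a `p`-group containing `U`, `U ≠ P`: the normaliser of `U` in `P` is larger than `U` (`P` is nilpotent: `IsPGroup.isNilpotent`, `normalizerCondition_of_isNilpotent`, or `IsPGroup` and counting), so there is `g ∈ P \ U` normalising `U`,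
`g = u h ∈ B` (NUB), `h = u⁻¹ g ∈ P` has order a power of `p` and divides `q - 1`, `q = p^f`: `h = 1`, contradiction. -/
def SYL_stmt : Prop := ∀ {n : ℕ} (C : Matrix (Fin n) (Fin n) ℤ) [Fact (Dyn C)] (F : Type) [Field F] [Finite F]
  (p : ℕ), p.Prime → CharP F p → IsPGroup p ((UU C F).subgroupOf (EG C F)) ∧
  ∀ P : Subgroup (EG C F), IsPGroup p P → (UU C F).subgroupOf (EG C F) ≤ P → P = (UU C F).subgroupOf (EG C F)

/-- NKM (uses RCM, SGN). `k ≥ 1`. (1) `U` normalises `UK k`. (2) for positive roots `α, β` of height `≥ k`: `x_α(s) x_β(t) = x_β(t) x_α(s) z`, `z ∈ UK (k+1)`. (RCM: `α + β` is a positive root of height `≥ 2k`; positive roots have height `≥ 1`.) -/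
def NKM_stmt : Prop := ∀ {n : ℕ} (C : Matrix (Fin n) (Fin n) ℤ) [Fact (Dyn C)] (F : Type) [Field F] (k : ℤ), 1 ≤ k →
  (∀ u ∈ UU C F, ∀ z ∈ UK C F k, u * z * u⁻¹ ∈ UK C F k) ∧
  ∀ (α β : Rt C) (s t : F), Pos α → Pos β → k ≤ ht α → k ≤ ht β →
    ∃ z ∈ UK C F (k + 1), xl α s * xl β t = xl β t * xl α s * z

/-- The product of the `x_α(c_α)`, `α > 0` of height `k`, in a fixed order. -/
def PRK {n : ℕ} {C : Matrix (Fin n) (Fin n) ℤ} [hC : Fact (Dyn C)] {F : Type} [Field F] (k : ℤ) (c : Rt C → F) :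
    LV C F ≃ₗ[F] LV C F := by
  classical
  exact ((Finset.univ.filter fun α : Rt C => Pos α ∧ ht α = k).toList.map fun α => xl α (c α)).prod

/-- PKD (uses NKM). `k ≥ 1`, `z ∈ UK k`: `z = PRK k c * z'`, `z' ∈ UK (k+1)`. Closure induction, multiplying on the left by a generator `x_α(t)` of `UK k`: if `ht α ≥ k+1`, move it to the right by NKM (1); if `ht α = k`, move it through the product to the factor `x_α(c_α)`
(NKM (2), (1); prove for a list `l` of distinct roots of height `k` containing `α` by induction on `l`). -/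
def PKD_stmt : Prop := ∀ {n : ℕ} (C : Matrix (Fin n) (Fin n) ℤ) [Fact (Dyn C)] (F : Type) [Field F] (k : ℤ), 1 ≤ k →
  ∀ z ∈ UK C F k, ∃ c : Rt C → F, ∃ z' ∈ UK C F (k + 1), z = PRK k c * z'

/-- LDA (uses FLK, XEF). The leading terms: for `v ∈ VG j`, `PRK k c * z'`, `z' ∈ UK (k+1)`, `k ≥ 1`, maps `v` to `v + ∑_{ht α = k} c_α [e_α, v]` modulo `VG (j+k+1)`. For one factor: `x_α(t) v = v + t[e_α,v] + t² f(e_α,v) e_α` and `f(e_α,v) e_α ∈ VG (j+2k)`; `[e_α,v] ∈ VG (j+k)`. -/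
def LDA_stmt : Prop := ∀ {n : ℕ} (C : Matrix (Fin n) (Fin n) ℤ) [Fact (Dyn C)] (F : Type) [Field F] (k : ℤ), 1 ≤ k →
  ∀ (c : Rt C → F), ∀ z' ∈ UK C F (k + 1), ∀ j : ℤ, ∀ v ∈ VG C F j, ∃ S : Finset (Rt C),
    (∀ α, α ∈ S ↔ Pos α ∧ ht α = k) ∧
    (PRK k c * z') v - v - ∑ α ∈ S, c α • br (ev C α 1) v ∈ VG C F (j + k + 1)

/-- RTD. For roots with `Q(α,β) = -1`: `α ≠ ±β` in `Fⁿ` (as `rt_ne_zero`: `α + β` is a root; `α - β` has norm `6`, and a vector of `pΛ` has norm divisible by `2p² ≥ 8`: `ee_self` shows that norms are even). -/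
def RTD_stmt : Prop := ∀ {n : ℕ} (C : Matrix (Fin n) (Fin n) ℤ) [Fact (Dyn C)] (F : Type) [Field F]
  (α β : Rt C), Q C α.1 β.1 = -1 → rt F α + rt F β ≠ 0 ∧ rt F α - rt F β ≠ 0

/-- CT1 (uses PKD, LDA, RTD, DM4). One step for the centre. `z = PRK k c * z' ∈ UK k` commutes with all `x_i(1)`, `1 ≤ k < ht θ`. Let `α > 0`, `ht α = k`; `α ≠ θ`, so there is `i` with `Q(α,α_i) = -1` (DM4); `δ = -(α+α_i)` is a root of height `-(k+1)`. LDA: `z e_δ = e_δ + ∑ c_{α'} [e_{α'}, e_δ] + v₀`, `v₀ ∈ VG 0`, the coordinate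
of `z e_δ` at `-α_i` is `c_α ε(α,δ)`; `z e_{-α} = e_{-α} - c_α α + v₁`, `v₁ ∈ VG 1` (for `α' ≠ α` of the same height `α' - α` is not a root). `x_i(1) e_δ = e_δ + ε(α_i,δ) e_{-α}`. `H`-parts of `z x_i(1) e_δ = x_i(1) z e_δ` (the `H`-part of `x_i(1) w` is `w.1 - w_{-α_i} α_i`): `-ε(α_i,δ) c_α α = -c_α ε(α,δ) α_i`; RTD: `c_α = 0`.
So `PRK k c = 1` and `z = z' ∈ UK (k+1)`. -/
def CT1_stmt : Prop := ∀ {n : ℕ} (C : Matrix (Fin n) (Fin n) ℤ) [Fact (Dyn C)] (F : Type) [Field F] (θ : Rt C), Dom θ →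
  ∀ k : ℤ, 1 ≤ k → k < ht θ → ∀ z ∈ UK C F k, (∀ u ∈ UU C F, z * u = u * z) → z ∈ UK C F (k + 1)

/-- CTR (uses CT1, DM2, DM4). The centre of `U` is `X_θ`: `U = UK 1` (positive roots have height `≥ 1`), CT1 up to `UK (ht θ)`, whose generators are the `x_θ(t)` (DM4). -/
def CTR_stmt : Prop := ∀ {n : ℕ} (C : Matrix (Fin n) (Fin n) ℤ) [Fact (Dyn C)] (F : Type) [Field F] (θ : Rt C), Dom θ →
  ∀ z ∈ UU C F, (∀ u ∈ UU C F, z * u = u * z) → ∃ t : F, z = xl θ t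

/-- UFX (uses DM2, RCM, XEF). `U` fixes `e_θ` and centralises `X_θ` (`Q(α,θ) ≥ 0` for `α > 0`). -/
def UFX_stmt : Prop := ∀ {n : ℕ} (C : Matrix (Fin n) (Fin n) ℤ) [Fact (Dyn C)] (F : Type) [Field F] (θ : Rt C), Dom θ →
  (∀ u ∈ UU C F, u (ev C θ 1) = ev C θ 1) ∧ ∀ u ∈ UU C F, ∀ t : F, u * xl θ t = xl θ t * u

/-- SIG (uses SYL, CTR, UFX, DM2). Automorphisms map `X_θ` to a conjugate: `x(U)` is a Sylow `p`-subgroup, `p = char F`, so `x(U) = g U g⁻¹` (`Sylow` conjugacy in the finite group `EG C F`); `x(x_θ(t))` is central in `x(U)`, so `g⁻¹ x(x_θ(t)) g` is central in `U`. -/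
def SIG_stmt : Prop := ∀ {n : ℕ} (C : Matrix (Fin n) (Fin n) ℤ) [Fact (Dyn C)] (F : Type) [Field F] [Finite F] (θ : Rt C), Dom θ →
  ∀ x : MulAut (EG C F), ∃ g : EG C F, ∀ t : F, ∃ t' : F, x (xg θ t) = g * xg θ t' * g⁻¹

/-- KT1 (uses NUB, WTR, NWE, MMU, MCJ, FLK, UFX, NBP). `k` normalises all conjugates of `X_θ`. Then `k` is diagonal. Every `X_α` is a conjugate of `X_θ` (WTR, NWE, MCJ), so `k` normalises `U`, so `k ∈ B` (NUB), and the same for `n k n⁻¹`, `n` monomial. Elements of `B` preserve the line of `e_θ`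
(UFX), so with `n` over `w`, `wα = θ`: `k e_α = n⁻¹ (n k n⁻¹) n e_α ∈ F e_α`. -/
def KT1_stmt : Prop := ∀ {n : ℕ} (C : Matrix (Fin n) (Fin n) ℤ) [Fact (Dyn C)] (F : Type) [Field F] (θ : Rt C), Dom θ →
  ∀ k ∈ EG C F, (∀ g ∈ EG C F, ∀ t : F, ∃ t' : F, k * (g * xl θ t * g⁻¹) * k⁻¹ = g * xl θ t' * g⁻¹) → IsH k

/-- KTR (uses KT1, MCJ, MMU, HID, WTR, NWE). Such a `k` is `1`: the set of these `k` is a normal subgroup `K` of `EG C F`. `k e_α = c_α e_α`; `[k, x_α(1)] = x_α(c_α - 1) ∈ K` is diagonal (KT1), so `c_α = 1` (`xl_apply`, `xf_ev_neg`: `x_α(t) e_{-α}` has `H`-part `-tα`). HID. -/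
def KTR_stmt : Prop := ∀ {n : ℕ} (C : Matrix (Fin n) (Fin n) ℤ) [Fact (Dyn C)] (F : Type) [Field F] (θ : Rt C), Dom θ →
  ∀ k ∈ EG C F, (∀ g ∈ EG C F, ∀ t : F, ∃ t' : F, k * (g * xl θ t * g⁻¹) * k⁻¹ = g * xl θ t' * g⁻¹) → k = 1

/-- ZTR (uses KTR, DM1). The centre of `EG C F` is trivial. -/
def ZTR_stmt : Prop := ∀ {n : ℕ} (C : Matrix (Fin n) (Fin n) ℤ) [Fact (Dyn C)] (F : Type) [Field F]
  (z : EG C F), (∀ g : EG C F, z * g = g * z) → z = 1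

/-! ## E. Root subgroups and pairs -/

section E

variable {n : ℕ} {C : Matrix (Fin n) (Fin n) ℤ} [hC : Fact (Dyn C)] {F : Type} [Field F]

/-- the root subgroup of `β` in `EG C F` -/
def XR (F : Type) [Field F] (β : Rt C) : Subgroup (EG C F) := Subgroup.closure (Set.range fun t : F => xg β t)

/-- conjugate subgroup `g A g⁻¹` -/
def cj (g : EG C F) (A : Subgroup (EG C F)) : Subgroup (EG C F) := A.map (MulAut.conj g).toMonoidHom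

/-- `A` is a conjugate of the root subgroup of `θ` -/
def Sg (θ : Rt C) (A : Subgroup (EG C F)) : Prop := ∃ g, A = cj g (XR F θ)

/-- `(A, B)` is conjugate to `(X_θ, X_β)` with `Q(θ,β) = m` -/
def Rel (θ : Rt C) (m : ℤ) (A B : Subgroup (EG C F)) : Prop :=
  ∃ (g : EG C F) (β : Rt C), Q C θ.1 β.1 = m ∧ A = cj g (XR F θ) ∧ B = cj g (XR F β)

end E

/-- XRM. Elements of `X_β`, and `cj`: `s ∈ cj g A ↔ ∃ a ∈ A, s = g a g⁻¹`; `cj g (cj h A) = cj (g h) A`; `cj 1 A = A`. -/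
def XRM_stmt : Prop := ∀ {n : ℕ} (C : Matrix (Fin n) (Fin n) ℤ) [Fact (Dyn C)] (F : Type) [Field F],
  (∀ (β : Rt C) (s : EG C F), s ∈ XR F β ↔ ∃ t : F, s = xg β t) ∧
  (∀ (g s : EG C F) (A : Subgroup (EG C F)), s ∈ cj g A ↔ ∃ a ∈ A, s = g * a * g⁻¹) ∧
  (∀ (g h : EG C F) (A : Subgroup (EG C F)), cj g (cj h A) = cj (g * h) A) ∧
  ∀ A : Subgroup (EG C F), cj 1 A = A

/-- MXR (uses XRM, MCJ). A monomial element over `w` maps `X_β` to `X_{wβ}`. -/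
def MXR_stmt : Prop := ∀ {n : ℕ} (C : Matrix (Fin n) (Fin n) ℤ) [Fact (Dyn C)] (F : Type) [Field F]
  (m : EG C F) (w : Equiv.Perm (Rt C)), Mono (m : LV C F ≃ₗ[F] LV C F) w → ∀ β : Rt C, cj m (XR F β) = XR F (w β)

/-- SGA (uses MXR, NWE, WTR, XRM). All `X_β` are in the class. -/
def SGA_stmt : Prop := ∀ {n : ℕ} (C : Matrix (Fin n) (Fin n) ℤ) [Fact (Dyn C)] (F : Type) [Field F] (θ : Rt C), Dom θ →
  ∀ β : Rt C, Sg θ (XR F β)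

/-- PAI (uses BRU, UFX, MXR, XRM). Two members of the class are in some relation: `A = g X_θ g⁻¹`, `B = h X_θ h⁻¹`, `g⁻¹ h = u n u'` (BRU); `u' X_θ u'⁻¹ = X_θ`, `n X_θ n⁻¹ = X_{wθ}`, `u` normalises `X_θ`: `(A,B) = g u (X_θ, X_{wθ}) (g u)⁻¹`. -/
def PAI_stmt : Prop := ∀ {n : ℕ} (C : Matrix (Fin n) (Fin n) ℤ) [Fact (Dyn C)] (F : Type) [Field F] (θ : Rt C), Dom θ →
  ∀ A B : Subgroup (EG C F), Sg θ A → Sg θ B → ∃ m : ℤ, Rel θ m A B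

/-- SIA (uses SIG, XRM). The class is invariant under automorphisms: `x(X_θ) ≤ g X_θ g⁻¹` by SIG, and both have `|F|` elements (`xl_inj`; `x` is injective; `F` is finite); for `A = h X_θ h⁻¹`: `x(A) = x(h) x(X_θ) x(h)⁻¹`. -/
def SIA_stmt : Prop := ∀ {n : ℕ} (C : Matrix (Fin n) (Fin n) ℤ) [Fact (Dyn C)] (F : Type) [Field F] [Finite F] (θ : Rt C), Dom θ →
  ∀ (x : MulAut (EG C F)) (A : Subgroup (EG C F)), Sg θ A → Sg θ (A.map x.toMonoidHom)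

/-- RSY (uses MXR, NWE, WRF, XRM). Relation `1` is symmetric: `γ = θ - β` is a root, `rf γ θ = β`, `rf γ β = θ`, `rfe γ ∈ W`: a monomial `n` over it swaps `X_θ` and `X_β`. Also relation `-2`: `β = -θ`, `rf θ θ = -θ`, `rf θ (-θ) = θ`. -/
def RSY_stmt : Prop := ∀ {n : ℕ} (C : Matrix (Fin n) (Fin n) ℤ) [Fact (Dyn C)] (F : Type) [Field F] (θ : Rt C), Dom θ →
  ∀ (m : ℤ), m = 1 ∨ m = -2 → ∀ A B : Subgroup (EG C F), Rel θ m A B → Rel θ m B A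

/-- LNE (uses LIN, GCJ, RCM, XEF, SGA, XRM). If `Rel 1 A B`, `a ∈ A`, `b ∈ B`, `a b ≠ 1` then `a b` is in a member of the class. For `A = X_θ`, `B = X_β`, `a = x_θ(s)`, `b = x_β(t)`: if `t = 0` it is in `X_θ`. If `t ≠ 0`: `γ = θ - β` is a root with `Q(γ,β) = -1`, `x_γ(u) e_β = e_β + u ε(γ,β) e_θ`, so with `u = s t⁻¹ ε(γ,β)`:
`x_γ(u) x_β(t) x_γ(u)⁻¹ = x_β(t) x_θ(s)` (RCM), and `x_β(t) x_θ(s) = x_θ(s) x_β(t)` (`Q = 1`, RCM); SGA. -/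
def LNE_stmt : Prop := ∀ {n : ℕ} (C : Matrix (Fin n) (Fin n) ℤ) [Fact (Dyn C)] (F : Type) [Field F] (θ : Rt C), Dom θ →
  ∀ A B : Subgroup (EG C F), Rel θ 1 A B → ∀ a ∈ A, ∀ b ∈ B, ∃ D : Subgroup (EG C F), Sg θ D ∧ a * b ∈ D

/-- OPP (uses NEG, NNM, MXR, RSY, XRM). `D` in the class, `y ∈ D`, `y ≠ 1`: there is `E` with `Rel (-2) D E`, `Rel (-2) E (y E y⁻¹)`. For `D = X_θ`, `E = X_{-θ}`, `y = x_θ(t)`, `t ≠ 0`: NEG for the root `-θ`: `x_θ(t) = x_{-θ}(a) n x_{-θ}(a)`, `n = nn (-θ) t⁻¹` monomial over `rfe (-θ)`, so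
`y X_{-θ} y⁻¹ = x_{-θ}(a) X_θ x_{-θ}(a)⁻¹`, and `(X_{-θ}, y X_{-θ} y⁻¹) = x_{-θ}(a) (X_{-θ}, X_θ) x_{-θ}(a)⁻¹`; `(X_{-θ}, X_θ)` is in relation `-2` (RSY). -/
def OPP_stmt : Prop := ∀ {n : ℕ} (C : Matrix (Fin n) (Fin n) ℤ) [Fact (Dyn C)] (F : Type) [Field F] (θ : Rt C), Dom θ →
  ∀ D : Subgroup (EG C F), Sg θ D → ∀ y ∈ D, y ≠ 1 → ∃ E : Subgroup (EG C F), Rel θ (-2) D E ∧ Rel θ (-2) E (cj y E)

/-- CMT (uses RCM, XRM, XEF). Relation `1` (and `2`) implies commuting elements (`Q ≥ 0`: RCM); relation `-2` implies that some elements do not commute (`x_θ(1) e_{-θ}`: `x_{-θ}(1)` fixes `e_{-θ}`, but `x_{-θ}(1) x_θ(1) e_{-θ} ≠ x_θ(1) e_{-θ}`: the coordinate of `x_θ(1) e_{-θ} = e_{-θ} - θ + e_θ` at `e_{-θ}` or the `H`-part changes: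
`x_{-θ}(1)(e_{-θ} - θ + e_θ)` has `H`-part `-θ + θ = 0`). -/
def CMT_stmt : Prop := ∀ {n : ℕ} (C : Matrix (Fin n) (Fin n) ℤ) [Fact (Dyn C)] (F : Type) [Field F] (θ : Rt C), Dom θ →
  ∀ A B : Subgroup (EG C F), (Rel θ 1 A B → ∀ a ∈ A, ∀ b ∈ B, a * b = b * a) ∧
    (Rel θ 2 A B → A = B) ∧ (Rel θ (-2) A B → ∃ a ∈ A, ∃ b ∈ B, a * b ≠ b * a)

/-- R3A (uses ANT, INV). Vectors `e, u, e'` with `[e,u] = 0`, `f(e,u) = 0`, `[e,[u,v]] = f(e,v)u + f(u,v)e` for all `v`, `e, u` independent, `c = f(e,e') ≠ 0`. Then `ex u` and `ex e'` do not commute. Apply both products to `e`: `ex u e = e` (`[u,e] = 0`, `f(u,e) = 0`), so `w = ex e' e = e + [e',e] + c e'` is fixed by `ex u`: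
`[u,w] + f(u,w) u = 0`, i.e. `[u,[e',e]] + c [u,e'] + f(u,w) u = 0`. Apply `[e, ·]`: `[e,[u,[e',e]]] = f(e,[e',e]) u + f(u,[e',e]) e = 0` (`f(e,[e',e]) = -f([e,e],e') = 0`, `f(u,[e',e]) = f([u,e'],e) = -f(e',[u,e]) = 0`), `[e,u] = 0`, so `c (c u + f(u,e') e) = 0`: contradiction. -/
def R3A_stmt : Prop := ∀ {n : ℕ} (C : Matrix (Fin n) (Fin n) ℤ) [Fact (Dyn C)] (F : Type) [Field F]
  (e u e' : LV C F), br e u = 0 → fo e u = 0 → (∀ v, br e (br u v) = fo e v • u + fo u v • e) →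
  (∀ a b : F, a • e + b • u = 0 → a = 0 ∧ b = 0) → fo e e' ≠ 0 → ∃ v, ex u (ex e' v) ≠ ex e' (ex u v)

/-- R3G (uses R3A, COL, GAU, GCJ, XRM, XEF). `Rel 1 E P`, `Rel (-2) E E'`: some elements of `P`, `E'` do not commute. `(E,E') = g(X_θ, X_{-θ})g⁻¹` (`Q(θ,β) = -2` means `β = -θ`), `(E,P) = h(X_θ,X_β)h⁻¹`, `Q(θ,β) = 1`. With `k = h⁻¹ g`: `k X_θ k⁻¹ = X_θ`. Take `e = e_θ`, `u = e_β`, `e' = k e_{-θ}`:
R3A's hypotheses for `e, u`: `br_ev_zero`, `fo_ev`, COL. `f(e_θ, k e_{-θ}) = f(k⁻¹ e_θ, e_{-θ})`; suppose it is `0`: `k X_{-θ} k⁻¹ = {ex(t e')}` (GCJ) and ... use instead: `k⁻¹ x_θ(1) k = x_θ(t₀)` with `t₀ ≠ 0`; apply to `e_{-θ}`: `k⁻¹ (ex e_θ) k e_{-θ} = ex(k⁻¹e_θ) e_{-θ}` and `= x_θ(t₀) e_{-θ}`, compare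
the form with... (any argument showing `f(e_θ, k e_{-θ}) ≠ 0`: `f(e_{-θ}, x_θ(t₀) e_{-θ}) = t₀² ≠ 0` and `f(e_{-θ}, ex(w) e_{-θ}) = f(w,e_{-θ})²` for `w = k⁻¹ e_θ`, since `f(e_{-θ},[w,e_{-θ}]) = 0`, `f(e_{-θ},e_{-θ}) = 0`). -/
def R3G_stmt : Prop := ∀ {n : ℕ} (C : Matrix (Fin n) (Fin n) ℤ) [Fact (Dyn C)] (F : Type) [Field F] (θ : Rt C), Dom θ →
  ∀ E P E' : Subgroup (EG C F), Rel θ 1 E P → Rel θ (-2) E E' → ∃ a ∈ P, ∃ b ∈ E', a * b ≠ b * a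

/-- FAI (uses KTR, XRM). An automorphism fixing all members of the class is `1`: for `g, h ∈ EG`: `x(h X_θ h⁻¹) = h X_θ h⁻¹` and `x(g h X_θ h⁻¹ g⁻¹) = g h X_θ h⁻¹ g⁻¹`, so `k = g⁻¹ x(g)` normalises `h X_θ h⁻¹` for all `h`; KTR: `k = 1`. -/
def FAI_stmt : Prop := ∀ {n : ℕ} (C : Matrix (Fin n) (Fin n) ℤ) [Fact (Dyn C)] (F : Type) [Field F] (θ : Rt C), Dom θ →
  ∀ x : MulAut (EG C F), (∀ A : Subgroup (EG C F), Sg θ A → A.map x.toMonoidHom = A) → x = 1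

/-- FAR (uses FAI, PAI, SIA, LNE, OPP, CMT, RSY, R3G, XRM). `x ≠ 1` moves some member `A` of the class to relation `0`, `-1` or `-2`. Otherwise (PAI, SIA, `bd`) `x(A) = A` or `Rel 1 A x(A)` for all `A` (relation `2` means equal, CMT). FAI: some `x(A) ≠ A`; take `a ∈ A`, `x(a) ∉ ...`: `a ∈ A`, `a ≠ 1`, `y = a x(a)⁻¹` (`y ≠ 1` for a suitable `a`: if
`x(a) = a` for all `a ∈ A` then `A ≤ x(A)`, so `A = x(A)`, equal finite orders). LNE (`x(a)⁻¹ ∈ x(A)`): `y ∈ D`. OPP: `E`. `P = x⁻¹(E)`. (i) `P = E` or `Rel 1 P E` (assumption for `P`). (ii) `y E y⁻¹ = a x(a⁻¹ P a) a⁻¹` (as `y = a x(a)⁻¹`, `E = x(P)`), with `P' = a⁻¹ P a`: `x(P') = P'` or `Rel 1 P' x(P')`; conjugate by `a`: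
`y E y⁻¹ = P` or `Rel 1 P (y E y⁻¹)`. Cases: `P = E`: then `y E y⁻¹ = E` or `Rel 1 E (yEy⁻¹)`, against `Rel (-2) E (yEy⁻¹)` (CMT). `Rel 1 P E` and `yEy⁻¹ = P`: same with RSY. `Rel 1 P E`, `Rel 1 P (yEy⁻¹)`: R3G for `E, P, yEy⁻¹` (`Rel 1 E P` by RSY) says that `P` and `yEy⁻¹` do not commute, CMT says they do. -/
def FAR_stmt : Prop := ∀ {n : ℕ} (C : Matrix (Fin n) (Fin n) ℤ) [Fact (Dyn C)] (F : Type) [Field F] [Finite F] (θ : Rt C), Dom θ →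
  ∀ x : MulAut (EG C F), x ≠ 1 → ∃ (A : Subgroup (EG C F)) (m : ℤ), (m = 0 ∨ m = -1 ∨ m = -2) ∧
    Rel θ m A (A.map x.toMonoidHom)

/-- NCP (uses FAR, XRM). The interface: a conjugate `x' = i_g x i_g⁻¹` of `x` maps `X_θ` to `X_β`, `Q(θ,β) ∈ {0,-1,-2}`. (`A = k X_θ k⁻¹`, `x(A) = k X_β k⁻¹`, `g = k⁻¹`.) -/
def NCP_stmt : Prop := ∀ {n : ℕ} (C : Matrix (Fin n) (Fin n) ℤ) [Fact (Dyn C)] (F : Type) [Field F] [Finite F] (θ : Rt C), Dom θ →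
  ∀ x : MulAut (EG C F), x ≠ 1 → ∃ (g : EG C F) (β : Rt C), (Q C θ.1 β.1 = 0 ∨ Q C θ.1 β.1 = -1 ∨ Q C θ.1 β.1 = -2) ∧
    ∀ t : F, t ≠ 0 → ∃ s : F, s ≠ 0 ∧ (MulAut.conj g * x * (MulAut.conj g)⁻¹) (xg θ t) = xg β s

end

end Pool.Agent.EX
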